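import Pool.Agent.T9h69.LeonardDefs

/-!
# Leonard triples which contain the Krawtchouk Leonard pair of `sl₂`
-/

namespace Pool.Agent.T9h69.Leonard

open Matrix Module

variable {K : Type*} [Field K]

/-! ### A model for tridiagonal matrices -/

/-- restriction of a sequence to the indices `0, ..., d` -/
def res (K : Type*) [Field K] (d : ℕ) (f : ℤ → K) : Fin (d + 1) → K := fun i => f ((i : ℕ) : ℤ)

lemma res_surj (d : ℕ) (v : Fin (d + 1) → K) : ∃ f : ℤ → K, res K d f = v := by
  refine ⟨fun k => if h : 0 ≤ k ∧ k < d + 1 then v ⟨k.toNat, by omega⟩ else 0, ?_⟩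
  funext i
  have h : (0 : ℤ) ≤ ((i : ℕ) : ℤ) ∧ ((i : ℕ) : ℤ) < d + 1 := by
    have := i.2
    omega
  simp only [res, h, dif_pos]
  simp

/-- `M` acts on the restrictions as the operator `F` on sequences -/
def Acts {d : ℕ} (M : Matrix (Fin (d + 1)) (Fin (d + 1)) K) (F : (ℤ → K) → (ℤ → K)) : Prop :=
  ∀ f : ℤ → K, M.mulVec (res K d f) = res K d (F f)

variable {d : ℕ}

lemma Acts.mul {M N : Matrix (Fin (d + 1)) (Fin (d + 1)) K} {F G : (ℤ → K) → (ℤ → K)}
    (hM : Acts M F) (hN : Acts N G) : Acts (M * N) (fun f => F (G f)) := by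
  intro f
  rw [← Matrix.mulVec_mulVec, hN f, hM]

lemma Acts.add {M N : Matrix (Fin (d + 1)) (Fin (d + 1)) K} {F G : (ℤ → K) → (ℤ → K)}
    (hM : Acts M F) (hN : Acts N G) : Acts (M + N) (fun f => F f + G f) := by
  intro f
  rw [Matrix.add_mulVec, hN f, hM f]; rfl

lemma Acts.sub {M N : Matrix (Fin (d + 1)) (Fin (d + 1)) K} {F G : (ℤ → K) → (ℤ → K)}
    (hM : Acts M F) (hN : Acts N G) : Acts (M - N) (fun f => F f - G f) := by
  intro f
  rw [Matrix.sub_mulVec, hN f, hM f]; rfl

lemma Acts.smul {M : Matrix (Fin (d + 1)) (Fin (d + 1)) K} {F : (ℤ → K) → (ℤ → K)}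
    (hM : Acts M F) (c : K) : Acts (c • M) (fun f => c • F f) := by
  intro f
  rw [Matrix.smul_mulVec, hM f]; rfl

lemma Acts.one : Acts (1 : Matrix (Fin (d + 1)) (Fin (d + 1)) K) (fun f => f) := by
  intro f
  rw [Matrix.one_mulVec]

lemma Acts.eq_zero {M : Matrix (Fin (d + 1)) (Fin (d + 1)) K} {F : (ℤ → K) → (ℤ → K)}
    (hM : Acts M F) (h : ∀ f, ∀ i : ℤ, 0 ≤ i → i ≤ d → F f i = 0) : M = 0 := by
  have h1 : ∀ v, M.mulVec v = 0 := by
    intro v
    obtain ⟨f, rfl⟩ := res_surj d v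
    rw [hM f]
    funext i
    have := i.2
    exact h f _ (by omega) (by omega)
  ext i j
  have := congrFun (h1 (Pi.single j 1)) i
  simpa using this

lemma Acts.apply_zero {M : Matrix (Fin (d + 1)) (Fin (d + 1)) K} {F : (ℤ → K) → (ℤ → K)}
    (hM : Acts M F) (h : M = 0) (f : ℤ → K) (i : ℤ) (h0 : 0 ≤ i) (h1 : i ≤ d) : F f i = 0 := by
  have h2 := congrFun (hM f) ⟨i.toNat, by omega⟩
  rw [h, Matrix.zero_mulVec] at h2
  simp only [res] at h2
  rw [show ((i.toNat : ℕ) : ℤ) = i by omega] at h2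
  exact h2.symm

/-- the operator of a tridiagonal matrix with diagonal `t`, upper diagonal `u`
(`u i` at `(i, i+1)`) and lower diagonal `l` (`l i` at `(i, i-1)`) -/
def tri (t u l : ℤ → K) (f : ℤ → K) : ℤ → K := fun i => t i * f i + u i * f (i + 1) + l i * f (i - 1)

lemma acts_tri (M : Matrix (Fin (d + 1)) (Fin (d + 1)) K) (t u l : ℤ → K)
    (h0 : ∀ i j : Fin (d + 1), (i : ℕ) + 1 < j ∨ (j : ℕ) + 1 < i → M i j = 0)
    (ht : ∀ i : Fin (d + 1), M i i = t ((i : ℕ) : ℤ))
    (hu : ∀ i j : Fin (d + 1), (i : ℕ) + 1 = j → M i j = u ((i : ℕ) : ℤ))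
    (hl : ∀ i j : Fin (d + 1), (j : ℕ) + 1 = i → M i j = l ((i : ℕ) : ℤ))
    (hud : u d = 0) (hl0 : l 0 = 0) : Acts M (tri t u l) := by
  intro f
  funext i
  have key : ∀ j : Fin (d + 1), M i j * f ((j : ℕ) : ℤ) =
      (if j = i then t ((i : ℕ) : ℤ) * f ((i : ℕ) : ℤ) else 0) +
      (if (i : ℕ) + 1 = j then u ((i : ℕ) : ℤ) * f (((i : ℕ) : ℤ) + 1) else 0) +
      (if (j : ℕ) + 1 = i then l ((i : ℕ) : ℤ) * f (((i : ℕ) : ℤ) - 1) else 0) := by
    intro j
    rcases lt_trichotomy (i : ℕ) (j : ℕ) with h | h | h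
    · have h1 : ¬ (j = i) := by intro h'; rw [h'] at h; omega
      have h2 : ¬ ((j : ℕ) + 1 = i) := by omega
      rw [if_neg h1, if_neg h2]
      by_cases h3 : (i : ℕ) + 1 = j
      · rw [if_pos h3, hu i j h3, ← h3]; push_cast; ring
      · rw [if_neg h3, h0 i j (by omega)]; ring
    · have h1 : j = i := Fin.ext h.symm
      subst h1
      rw [if_pos rfl, if_neg (by omega), if_neg (by omega), ht]; ring
    · have h1 : ¬ (j = i) := by intro h'; rw [h'] at h; omega
      have h2 : ¬ ((i : ℕ) + 1 = j) := by omega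
      rw [if_neg h1, if_neg h2]
      by_cases h3 : (j : ℕ) + 1 = i
      · rw [if_pos h3, hl i j h3, ← h3]; push_cast; ring_nf
      · rw [if_neg h3, h0 i j (by omega)]; ring
  have hs : (M.mulVec (res K d f)) i = ∑ j, M i j * f ((j : ℕ) : ℤ) := rfl
  rw [hs, Finset.sum_congr rfl (fun j _ => key j), Finset.sum_add_distrib, Finset.sum_add_distrib]
  have e1 : ∑ j : Fin (d + 1), (if j = i then t ((i : ℕ) : ℤ) * f ((i : ℕ) : ℤ) else 0) =
      t ((i : ℕ) : ℤ) * f ((i : ℕ) : ℤ) := by simp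
  have e2 : ∑ j : Fin (d + 1), (if (i : ℕ) + 1 = j then
      u ((i : ℕ) : ℤ) * f (((i : ℕ) : ℤ) + 1) else 0) =
      u ((i : ℕ) : ℤ) * f (((i : ℕ) : ℤ) + 1) := by
    by_cases h : (i : ℕ) + 1 < d + 1
    · rw [Finset.sum_eq_single (⟨(i : ℕ) + 1, h⟩ : Fin (d + 1))]
      · simp
      · intro b _ hb
        rw [if_neg]
        intro h'
        exact hb (Fin.ext h'.symm)
      · intro h'; exact absurd (Finset.mem_univ _) h'
    · have hi : (i : ℕ) = d := by have := i.2; omega
      rw [Finset.sum_eq_zero]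
      · rw [hi, hud]; ring
      · intro j _
        rw [if_neg]
        have := j.2
        omega
  have e3 : ∑ j : Fin (d + 1), (if (j : ℕ) + 1 = i then
      l ((i : ℕ) : ℤ) * f (((i : ℕ) : ℤ) - 1) else 0) =
      l ((i : ℕ) : ℤ) * f (((i : ℕ) : ℤ) - 1) := by
    by_cases h : (i : ℕ) = 0
    · rw [Finset.sum_eq_zero]
      · rw [h]; push_cast; rw [hl0]; ring
      · intro j _
        rw [if_neg]
        omega
    · rw [Finset.sum_eq_single (⟨(i : ℕ) - 1, by have := i.2; omega⟩ : Fin (d + 1))]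
      · simp only
        rw [if_pos (by omega)]
      · intro b _ hb
        rw [if_neg]
        intro h'
        apply hb
        apply Fin.ext
        simp only
        omega
      · intro h'; exact absurd (Finset.mem_univ _) h'
  rw [e1, e2, e3]
  rfl

/-- the operator of `A` -/
def hA (K : Type*) [Field K] (d : ℕ) : (ℤ → K) → (ℤ → K) :=
  tri (fun _ => 0) (fun i => (d : K) - i) (fun i => i)

/-- the operator of `A*` -/
def hS (K : Type*) [Field K] (d : ℕ) : (ℤ → K) → (ℤ → K) :=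
  tri (fun i => (d : K) - 2 * i) (fun _ => 0) (fun _ => 0)

lemma acts_kA : Acts (kA K d) (hA K d) := by
  apply acts_tri
  · intro i j h
    simp only [kA, Matrix.of_apply]
    rw [if_neg (by omega), if_neg (by omega)]
  · intro i
    simp [kA]
  · intro i j h
    simp only [kA, Matrix.of_apply]
    rw [if_pos h]; push_cast; ring
  · intro i j h
    simp only [kA, Matrix.of_apply]
    rw [if_neg (by omega), if_pos h]; push_cast; ring
  · push_cast; ring
  · push_cast; ring

lemma acts_kS : Acts (kS K d) (hS K d) := by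
  apply acts_tri
  · intro i j h
    simp only [kS]
    rw [Matrix.diagonal_apply_ne]
    intro h'; rw [h'] at h; omega
  · intro i
    simp [kS]
  · intro i j h
    simp only [kS]
    rw [Matrix.diagonal_apply_ne]
    intro h'; rw [h'] at h; omega
  · intro i j h
    simp only [kS]
    rw [Matrix.diagonal_apply_ne]
    intro h'; rw [h'] at h; omega
  · rfl
  · rfl


lemma rel1 : kA K d * kA K d * kS K d - (2 : K) • (kA K d * kS K d * kA K d) +
    kS K d * kA K d * kA K d - (4 : K) • kS K d = 0 := by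
  refine ((((acts_kA.mul acts_kA).mul acts_kS).sub
    (((acts_kA.mul acts_kS).mul acts_kA).smul 2)).add ((acts_kS.mul acts_kA).mul acts_kA)).sub
    (acts_kS.smul 4) |>.eq_zero ?_
  intro f i _ _
  simp only [hA, hS, tri, Pi.add_apply, Pi.sub_apply, Pi.smul_apply, smul_eq_mul]
  push_cast
  ring_nf

lemma rel2 : kS K d * kS K d * kA K d - (2 : K) • (kS K d * kA K d * kS K d) +
    kA K d * kS K d * kS K d - (4 : K) • kA K d = 0 := by
  refine ((((acts_kS.mul acts_kS).mul acts_kA).sub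
    (((acts_kS.mul acts_kA).mul acts_kS).smul 2)).add ((acts_kA.mul acts_kS).mul acts_kS)).sub
    (acts_kA.smul 4) |>.eq_zero ?_
  intro f i _ _
  simp only [hA, hS, tri, Pi.add_apply, Pi.sub_apply, Pi.smul_apply, smul_eq_mul]
  push_cast
  ring_nf

/-- `ad_X ^ 3 Y - 4 ad_X Y` -/
def ad3 (K : Type*) [Field K] {R : Type*} [Ring R] [Algebra K R] (X Y : R) : R :=
  X * X * X * Y - (3 : K) • (X * X * Y * X) + (3 : K) • (X * Y * X * X) - Y * X * X * X -
    (4 : K) • (X * Y - Y * X)

/-- the entries of a matrix as a function of integers -/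
def getE (E : Matrix (Fin (d + 1)) (Fin (d + 1)) K) (i j : ℤ) : K :=
  if h : (0 ≤ i ∧ i < d + 1) ∧ (0 ≤ j ∧ j < d + 1) then
    E ⟨i.toNat, by omega⟩ ⟨j.toNat, by omega⟩ else 0

lemma getE_eq (E : Matrix (Fin (d + 1)) (Fin (d + 1)) K) (i j : Fin (d + 1)) :
    getE E ((i : ℕ) : ℤ) ((j : ℕ) : ℤ) = E i j := by
  have h : ((0 : ℤ) ≤ ((i : ℕ) : ℤ) ∧ ((i : ℕ) : ℤ) < d + 1) ∧
      ((0 : ℤ) ≤ ((j : ℕ) : ℤ) ∧ ((j : ℕ) : ℤ) < d + 1) := by
    have := i.2
    have := j.2
    omega
  simp only [getE, h, and_self, dif_pos]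
  simp


/-- `m_i = (d - i) (i + 1)` -/
def mm (K : Type*) [Field K] (d : ℕ) (i : ℤ) : K := ((d : K) - i) * (i + 1)

/-- the second order recurrence expression -/
def gam (d : ℕ) (g : ℤ → K) (i : ℤ) : K :=
  (4 * mm K d i + mm K d (i + 1) + mm K d (i - 1) - 4) * g i - 3 * mm K d (i - 1) * g (i - 1) -
    3 * mm K d (i + 1) * g (i + 1)

section
variable (t uu ll : ℤ → K) (E : Matrix (Fin (d + 1)) (Fin (d + 1)) K)
    (hE : Acts E (tri t (fun i => ((d : K) - i) * uu i) (fun i => (i : K) * ll (i - 1))))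
    (hR : ad3 K (kA K d) E = 0)
include hE hR

lemma base (f : ℤ → K) (i : ℤ) (h0 : 0 ≤ i) (h1 : i ≤ d) :
    ((fun f => hA K d (hA K d (hA K d
      (tri t (fun i => ((d : K) - i) * uu i) (fun i => (i : K) * ll (i - 1)) f))) -
      (3 : K) • hA K d (hA K d
      (tri t (fun i => ((d : K) - i) * uu i) (fun i => (i : K) * ll (i - 1)) (hA K d f))) +
      (3 : K) • hA K d 
      (tri t (fun i => ((d : K) - i) * uu i) (fun i => (i : K) * ll (i - 1)) (hA K d (hA K d f))) -
      (tri t (fun i => ((d : K) - i) * uu i) (fun i => (i : K) * ll (i - 1))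
        (hA K d (hA K d (hA K d f)))) -
      (4 : K) • (hA K d
      (tri t (fun i => ((d : K) - i) * uu i) (fun i => (i : K) * ll (i - 1)) f) -
      (tri t (fun i => ((d : K) - i) * uu i) (fun i => (i : K) * ll (i - 1)) (hA K d f))))
      f) i = 0 := by
  have hact := ((((((acts_kA (K := K)).mul acts_kA).mul acts_kA).mul hE).sub
    (((((acts_kA (K := K)).mul acts_kA).mul hE).mul acts_kA).smul 3)).add
    ((((acts_kA.mul hE).mul acts_kA).mul acts_kA).smul 3)).sub
    (((hE.mul acts_kA).mul acts_kA).mul acts_kA) |>.sub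
    ((((acts_kA (K := K)).mul hE).sub (hE.mul acts_kA)).smul 4)
  exact hact.apply_zero (by simpa only [ad3] using hR) f i h0 h1

set_option maxRecDepth 100000 in
lemma recT (i : ℤ) (h0 : 0 ≤ i) (h1 : i ≤ d) :
    ((d : K) - i) * gam d (fun i => t (i + 1) - t i) i = 0 := by
  have h2 := base t uu ll E hE hR (fun k => if k - i = 1 then 1 else 0) i h0 h1
  simp only [hA, tri, Pi.add_apply, Pi.sub_apply, Pi.smul_apply, smul_eq_mul] at h2
  push_cast at h2
  ring_nf at h2
  norm_num at h2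
  simp only [gam, mm]
  push_cast
  ring_nf
  linear_combination h2

set_option maxRecDepth 100000 in
lemma recG (i : ℤ) (h0 : 0 ≤ i) (h1 : i ≤ d) :
    mm K d i * gam d (fun i => ll i - uu i) i -
      mm K d (i - 1) * gam d (fun i => ll i - uu i) (i - 1) = 0 := by
  have h2 := base t uu ll E hE hR (fun k => if k - i = 0 then 1 else 0) i h0 h1
  simp only [hA, tri, Pi.add_apply, Pi.sub_apply, Pi.smul_apply, smul_eq_mul] at h2
  push_cast at h2
  ring_nf at h2
  norm_num at h2
  simp only [gam, mm]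
  push_cast
  ring_nf
  linear_combination h2

set_option maxRecDepth 100000 in
lemma recD (i : ℤ) (h0 : 0 ≤ i) (h1 : i ≤ d) (g D sg rho : ℤ → K)
    (hg : ∀ j, g j = ll j - uu j) (hD : ∀ j, D j = uu (j + 1) - uu j)
    (hsg : ∀ j, sg j = mm K d j * g j - mm K d (j - 1) * g (j - 1))
    (hrho : ∀ j, rho j = sg (j + 1) - sg j + mm K d (j - 1) * D (j - 1) -
      mm K d (j + 1) * D j) :
    (((d : K) - i) * ((d : K) - i - 1)) * (rho (i + 1) - rho i +
      mm K d (i - 1) * (D i - D (i - 1)) - mm K d (i + 2) * (D (i + 1) - D i) - 4 * D i) = 0 := by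
  have h2 := base t uu ll E hE hR (fun k => if k - i = 2 then 1 else 0) i h0 h1
  simp only [hA, tri, Pi.add_apply, Pi.sub_apply, Pi.smul_apply, smul_eq_mul] at h2
  push_cast at h2
  ring_nf at h2
  norm_num at h2
  simp only [hrho, hsg, hg, hD, mm]
  push_cast
  ring_nf
  linear_combination h2

end

section
variable [CharZero K]

lemma mm_ne (i : ℤ) (h0 : 0 ≤ i) (h1 : i < d) : mm K d i ≠ 0 := by
  simp only [mm]
  have e1 : ((d : K) - i) = (((d : ℤ) - i : ℤ) : K) := by push_cast; ring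
  have e2 : ((i : K) + 1) = ((i + 1 : ℤ) : K) := by push_cast; ring
  rw [e1, e2]
  exact mul_ne_zero (Int.cast_ne_zero.mpr (by omega)) (Int.cast_ne_zero.mpr (by omega))

lemma gam_const (g : ℤ → K) (h : ∀ i : ℤ, 0 ≤ i → i < d → gam d g i = 0) :
    ∀ n : ℕ, (n : ℤ) < d → g n = g 0 := by
  have key : ∀ n : ℕ, ∀ k : ℕ, k ≤ n → (k : ℤ) < d → g k = g 0 := by
    intro n
    induction n with
    | zero => intro k hk _; obtain rfl : k = 0 := by omega
              rfl
    | succ n ih =>
      intro k hk hkd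
      rcases Nat.lt_or_ge k (n + 1) with h1 | h1
      · exact ih k (by omega) hkd
      · obtain rfl : k = n + 1 := by omega
        have e1 := ih n le_rfl (by push_cast at hkd; omega)
        have e2 := h n (by omega) (by push_cast at hkd; omega)
        have e3 : mm K d ((n : ℤ) - 1) * g ((n : ℤ) - 1) = mm K d ((n : ℤ) - 1) * g 0 := by
          rcases Nat.eq_zero_or_pos n with hn | hn
          · subst hn; simp [mm]
          · have := ih (n - 1) (by omega) (by push_cast at hkd; omega)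
            rw [show ((n - 1 : ℕ) : ℤ) = (n : ℤ) - 1 by omega] at this
            rw [this]
        have e4 : mm K d ((n : ℤ) + 1) ≠ 0 := mm_ne _ (by omega) (by push_cast at hkd; omega)
        have e5 : mm K d ((n : ℤ) + 1) * (g ((n : ℤ) + 1) - g 0) = 0 := by
          simp only [gam] at e2
          rw [e1] at e2
          have e6 : 4 * mm K d (n : ℤ) - 2 * mm K d ((n : ℤ) + 1) - 2 * mm K d ((n : ℤ) - 1) - 4
              = 0 := by
            simp only [mm]; push_cast; ring
          have e7 : (3 : K) * (mm K d ((n : ℤ) + 1) * (g ((n : ℤ) + 1) - g 0)) = 0 := by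
            linear_combination (-1 : K) * e2 - 3 * e3 + g 0 * e6
          exact (mul_eq_zero.mp e7).resolve_left (by norm_num)
        push_cast
        have := (mul_eq_zero.mp e5).resolve_left e4
        linear_combination this
  intro n hn
  exact key n n le_rfl hn

end

end Pool.Agent.T9h69.Leonard
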