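import Pool.Agent.T9h69.Leonard

namespace Pool.Agent.T9h69.Leonard

open Matrix Module

variable {K : Type*} [Field K] {d : ℕ} [CharZero K]

/-- A tridiagonal matrix which is also `tridiagonal with respect to A` is a combination of
`1, A, A*, A A*, A* A`. -/
lemma span_of_rel (E : Matrix (Fin (d + 1)) (Fin (d + 1)) K)
    (hT : ∀ i j : Fin (d + 1), (i : ℕ) + 1 < j ∨ (j : ℕ) + 1 < i → E i j = 0)
    (hR : ad3 K (kA K d) E = 0) :
    ∃ a b c k l : K, E = a • 1 + b • kA K d + c • kS K d + k • (kA K d * kS K d) +
      l • (kS K d * kA K d) := by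
  set t : ℤ → K := fun i => getE E i i with ht
  set uu : ℤ → K := fun i => getE E i (i + 1) / ((d : K) - i) with huu
  set ll : ℤ → K := fun i => getE E (i + 1) i / ((i : K) + 1) with hll
  have hE : Acts E (tri t (fun i => ((d : K) - i) * uu i) (fun i => (i : K) * ll (i - 1))) := by
    apply acts_tri _ _ _ _ hT
    · intro i
      simp only [ht]
      rw [getE_eq]
    · intro i j hij
      have h1 : ((d : K) - ((i : ℕ) : ℤ)) ≠ 0 := by
        have h2 : ((d : K) - ((i : ℕ) : ℤ)) = (((d : ℤ) - (i : ℕ) : ℤ) : K) := by push_cast; ring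
        rw [h2]
        have := j.2
        exact Int.cast_ne_zero.mpr (by omega)
      simp only [huu]
      rw [mul_div_cancel₀ _ h1]
      rw [show (((i : ℕ) : ℤ) + 1) = ((j : ℕ) : ℤ) by omega, getE_eq]
    · intro i j hij
      simp only [hll]
      have h1 : (((i : ℕ) : ℤ) : K) ≠ 0 := Int.cast_ne_zero.mpr (by omega)
      rw [show (((i : ℕ) : ℤ) - 1) = ((j : ℕ) : ℤ) by omega,
        show (((j : ℕ) : ℤ) + 1) = ((i : ℕ) : ℤ) by omega, getE_eq]
      rw [show ((((j : ℕ) : ℤ) : K) + 1) = (((i : ℕ) : ℤ) : K) by
        rw [← hij]; push_cast; ring]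
      rw [mul_div_cancel₀ _ h1]
    · push_cast; ring
    · push_cast; ring
  -- the differences of the diagonal
  have hdne : ∀ i : ℤ, i < d → ((d : K) - i) ≠ 0 := by
    intro i hi
    have h2 : ((d : K) - i) = (((d : ℤ) - i : ℤ) : K) := by push_cast; ring
    rw [h2]
    exact Int.cast_ne_zero.mpr (by omega)
  have hTc := gam_const (K := K) (d := d) (fun i => t (i + 1) - t i) (by
    intro i h0 h1
    exact (mul_eq_zero.mp (recT t uu ll E hE hR i h0 h1.le)).resolve_left (hdne i h1))
  set dl : K := t 1 - t 0 with hdl
  have ht' : ∀ n : ℕ, (n : ℤ) ≤ d → t n = t 0 + n * dl := by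
    intro n
    induction n with
    | zero => intro _; simp
    | succ n ih =>
      intro h
      have e1 := ih (by push_cast at h; omega)
      have e2 := hTc n (by push_cast at h; omega)
      simp only [zero_add] at e2
      push_cast
      linear_combination e1 + e2
  -- the difference of the off-diagonals
  have hG0 : ∀ n : ℕ, (n : ℤ) ≤ d → mm K d n * gam d (fun i => ll i - uu i) n = 0 := by
    intro n
    induction n with
    | zero =>
      intro h
      have := recG t uu ll E hE hR 0 le_rfl (by omega)
      have e1 : mm K d (0 - 1) = 0 := by simp [mm]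
      rw [e1] at this
      simpa using this
    | succ n ih =>
      intro h
      have e1 := ih (by push_cast at h; omega)
      have e2 := recG t uu ll E hE hR (n + 1) (by omega) (by push_cast at h; omega)
      rw [show ((n : ℤ) + 1 - 1) = n by ring] at e2
      push_cast
      linear_combination e1 + e2
  have hGc := gam_const (K := K) (d := d) (fun i => ll i - uu i) (by
    intro i h0 h1
    have := hG0 i.toNat (by omega)
    rw [show ((i.toNat : ℕ) : ℤ) = i by omega] at this
    exact (mul_eq_zero.mp this).resolve_left (mm_ne i h0 h1))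
  set gm : K := ll 0 - uu 0 with hgm
  have hmg : ∀ j : ℤ, -1 ≤ j → j ≤ d → mm K d j * (ll j - uu j) = mm K d j * gm := by
    intro j h0 h1
    by_cases h2 : j = -1
    · subst h2; simp [mm]
    by_cases h3 : j = d
    · subst h3; simp [mm]
    have := hGc j.toNat (by omega)
    rw [show ((j.toNat : ℕ) : ℤ) = j by omega] at this
    rw [this]
  -- the differences of the upper diagonal
  set D : ℤ → K := fun j => uu (j + 1) - uu j with hDdef
  have hD : ∀ i : ℤ, 0 ≤ i → i + 1 < d →
      (mm K d (i - 1) + mm K d i + mm K d (i + 1) + mm K d (i + 2) - 4) * D i =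
        2 * mm K d (i + 2) * D (i + 1) + 2 * mm K d (i - 1) * D (i - 1) := by
    intro i h0 h1
    have h2 := recD t uu ll E hE hR i h0 (by omega) (fun j => ll j - uu j) D
      (fun j => mm K d j * (ll j - uu j) - mm K d (j - 1) * (ll (j - 1) - uu (j - 1)))
      (fun j => (mm K d (j + 1) * (ll (j + 1) - uu (j + 1)) -
          mm K d (j + 1 - 1) * (ll (j + 1 - 1) - uu (j + 1 - 1))) -
        (mm K d j * (ll j - uu j) - mm K d (j - 1) * (ll (j - 1) - uu (j - 1))) +
        mm K d (j - 1) * D (j - 1) - mm K d (j + 1) * D j)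
      (fun j => rfl) (fun j => rfl) (fun j => rfl) (fun j => rfl)
    have h3 : ((d : K) - i) * ((d : K) - i - 1) ≠ 0 := by
      have h4 := hdne (i + 1) (by omega)
      have h5 := hdne i (by omega)
      refine mul_ne_zero h5 ?_
      intro h6
      apply h4
      push_cast
      linear_combination h6
    have h4 := (mul_eq_zero.mp h2).resolve_left h3
    have e0 := hmg i (by omega) (by omega)
    have e1 := hmg (i - 1) (by omega) (by omega)
    have e2 := hmg (i + 1) (by omega) (by omega)
    have e3 := hmg (i + 2) (by omega) (by omega)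
    simp only [show i + 1 + 1 = i + 2 by ring, show i + 1 - 1 = i by ring,
      show i + 2 - 1 = i + 1 by ring] at h4
    rw [e0, e1, e2, e3] at h4
    have e5 : mm K d (i + 2) - 3 * mm K d (i + 1) + 3 * mm K d i - mm K d (i - 1) = 0 := by
      simp only [mm]; push_cast; ring
    linear_combination h4 - gm * e5
  have hDc : ∀ n : ℕ, (n : ℤ) + 1 < d → D n = D 0 := by
    have key : ∀ n : ℕ, ∀ k : ℕ, k ≤ n → (k : ℤ) + 1 < d → D k = D 0 := by
      intro n
      induction n with
      | zero => intro k hk _; obtain rfl : k = 0 := by omega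
                rfl
      | succ n ih =>
        intro k hk hkd
        rcases Nat.lt_or_ge k (n + 1) with h1 | h1
        · exact ih k (by omega) hkd
        · obtain rfl : k = n + 1 := by omega
          have e1 := ih n le_rfl (by push_cast at hkd; omega)
          have e2 := hD n (by omega) (by push_cast at hkd; omega)
          have e3 : mm K d ((n : ℤ) - 1) * D ((n : ℤ) - 1) = mm K d ((n : ℤ) - 1) * D 0 := by
            rcases Nat.eq_zero_or_pos n with hn | hn
            · subst hn; simp [mm]
            · have := ih (n - 1) (by omega) (by push_cast at hkd; omega)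
              rw [show ((n - 1 : ℕ) : ℤ) = (n : ℤ) - 1 by omega] at this
              rw [this]
          have e4 : mm K d ((n : ℤ) + 2) ≠ 0 := mm_ne _ (by omega) (by push_cast at hkd; omega)
          rw [e1] at e2
          have e5 : mm K d ((n : ℤ) - 1) + mm K d (n : ℤ) + mm K d ((n : ℤ) + 1) +
              mm K d ((n : ℤ) + 2) - 4 - 2 * mm K d ((n : ℤ) + 2) - 2 * mm K d ((n : ℤ) - 1)
              = 0 := by
            simp only [mm]; push_cast; ring
          have e6 : (2 : K) * (mm K d ((n : ℤ) + 2) * (D ((n : ℤ) + 1) - D 0)) = 0 := by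
            linear_combination (-1 : K) * e2 - 2 * e3 + D 0 * e5
          have e7 := (mul_eq_zero.mp ((mul_eq_zero.mp e6).resolve_left (by norm_num))).resolve_left
            e4
          push_cast
          linear_combination e7
    intro n hn
    exact key n n le_rfl hn
  set dd : K := D 0 with hdd
  have huu' : ∀ n : ℕ, (n : ℤ) < d → uu n = uu 0 + n * dd := by
    intro n
    induction n with
    | zero => intro _; simp
    | succ n ih =>
      intro h
      have e1 := ih (by push_cast at h; omega)
      have e2 := hDc n (by push_cast at h; omega)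
      simp only [hDdef] at e2
      push_cast
      linear_combination e1 + e2
  have hll' : ∀ n : ℕ, (n : ℤ) < d → ll n = uu 0 + n * dd + gm := by
    intro n hn
    have e1 := huu' n hn
    have e2 := hGc n hn
    linear_combination e1 + e2
  refine ⟨t 0 + dl * d / 2, uu 0 + dd * d / 2 - dd / 2 + gm / 2, -dl / 2, -dd / 4 + gm / 4,
    -dd / 4 - gm / 4, ?_⟩
  rw [← sub_eq_zero]
  refine (hE.sub (((((Acts.one (K := K)).smul _).add (acts_kA.smul _)).add (acts_kS.smul _)).add
    ((acts_kA.mul acts_kS).smul _) |>.add ((acts_kS.mul acts_kA).smul _))).eq_zero ?_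
  intro f i h0 h1
  have e1 := ht' i.toNat (by omega)
  rw [show ((i.toNat : ℕ) : ℤ) = i by omega] at e1
  have e1' : t i = t 0 + i * dl := by
    rw [e1]
    have : ((i.toNat : ℕ) : K) = ((i.toNat : ℤ) : K) := by push_cast; rfl
    rw [this, show ((i.toNat : ℕ) : ℤ) = i by omega]
  have e2 : ((d : K) - i) * uu i = ((d : K) - i) * (uu 0 + i * dd) := by
    by_cases h : i = d
    · subst h; simp
    · have := huu' i.toNat (by omega)
      rw [show ((i.toNat : ℕ) : ℤ) = i by omega] at this
      rw [this]
      have h3 : ((i.toNat : ℕ) : K) = ((i.toNat : ℤ) : K) := by push_cast; rfl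
      rw [h3, show ((i.toNat : ℕ) : ℤ) = i by omega]
  have e3 : (i : K) * ll (i - 1) = (i : K) * (uu 0 + (i - 1) * dd + gm) := by
    by_cases h : i = 0
    · subst h; simp
    · have := hll' (i - 1).toNat (by omega)
      rw [show (((i - 1).toNat : ℕ) : ℤ) = i - 1 by omega] at this
      rw [this]
      have h3 : (((i - 1).toNat : ℕ) : K) = (((i - 1).toNat : ℤ) : K) := by push_cast; rfl
      rw [h3, show (((i - 1).toNat : ℕ) : ℤ) = i - 1 by omega]
      push_cast; ring
  simp only [hA, hS, tri, Pi.add_apply, Pi.sub_apply, Pi.smul_apply, smul_eq_mul]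
  rw [e1', e2, e3]
  push_cast
  ring

end Pool.Agent.T9h69.Leonard
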