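import Pool.Agent.T9h69.Leonard2

namespace Pool.Agent.T9h69.Leonard

open Matrix Module

variable {K : Type*} [Field K]

section tridiag
variable {n : ℕ}

lemma diag_mul' {D M : Matrix (Fin n) (Fin n) K} (hD : D.IsDiag) (i j : Fin n) :
    (D * M) i j = D i i * M i j := by
  rw [Matrix.mul_apply, Finset.sum_eq_single i]
  · intro k _ hk
    rw [hD (Ne.symm hk), zero_mul]
  · intro h; exact absurd (Finset.mem_univ _) h

lemma mul_diag' {D M : Matrix (Fin n) (Fin n) K} (hD : D.IsDiag) (i j : Fin n) :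
    (M * D) i j = M i j * D j j := by
  rw [Matrix.mul_apply, Finset.sum_eq_single j]
  · intro k _ hk
    rw [hD hk, mul_zero]
  · intro h; exact absurd (Finset.mem_univ _) h

/-- adjacent eigenvalues differ by `±2` -/
lemma adj_sq {D M : Matrix (Fin n) (Fin n) K} (hD : D.IsDiag)
    (hrel : D * D * M - (2 : K) • (D * M * D) + M * D * D - (4 : K) • M = 0) (i j : Fin n)
    (hij : M i j ≠ 0) : (D i i - D j j) ^ 2 = 4 := by
  have h := congrFun (congrFun hrel i) j
  simp only [Matrix.sub_apply, Matrix.add_apply, Matrix.smul_apply, smul_eq_mul,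
    Matrix.zero_apply, Matrix.mul_assoc, diag_mul' hD] at h
  rw [mul_diag' hD, ← Matrix.mul_assoc, mul_diag' hD, mul_diag' hD] at h
  have h2 : ((D i i - D j j) ^ 2 - 4) * M i j = 0 := by linear_combination h
  have h3 := (mul_eq_zero.mp h2).resolve_right hij
  linear_combination h3

lemma ad3_of_tri {D M N : Matrix (Fin n) (Fin n) K} (hD : D.IsDiag) (hM : IrredTridiag M)
    (hN : IrredTridiag N)
    (hrel : D * D * M - (2 : K) • (D * M * D) + M * D * D - (4 : K) • M = 0) :
    ad3 K D N = 0 := by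
  ext i j
  simp only [ad3, Matrix.sub_apply, Matrix.add_apply, Matrix.smul_apply, smul_eq_mul,
    Matrix.zero_apply, Matrix.mul_assoc, diag_mul' hD]
  have e1 : (N * (D * (D * D))) i j = N i j * D j j * D j j * D j j := by
    rw [← Matrix.mul_assoc, ← Matrix.mul_assoc, mul_diag' hD, mul_diag' hD, mul_diag' hD]
  have e2 : (N * (D * D)) i j = N i j * D j j * D j j := by
    rw [← Matrix.mul_assoc, mul_diag' hD, mul_diag' hD]
  rw [e1, e2, mul_diag' hD]
  have key : ((D i i - D j j) ^ 3 - 4 * (D i i - D j j)) * N i j = 0 := by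
    by_cases h : (i : ℕ) + 1 < j ∨ (j : ℕ) + 1 < i
    · rw [hN.1 i j h, mul_zero]
    · by_cases h2 : (i : ℕ) + 1 = j ∨ (j : ℕ) + 1 = i
      · have := adj_sq hD hrel i j (hM.2 i j h2)
        have h3 : (D i i - D j j) ^ 3 - 4 * (D i i - D j j) = 0 := by
          linear_combination (D i i - D j j) * this
        rw [h3, zero_mul]
      · have : i = j := Fin.ext (by omega)
        subst this; ring
  linear_combination key

end tridiag

variable {d : ℕ}

/-- The representation in a basis as an algebra isomorphism. -/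
noncomputable def phi {n : ℕ} (b : Basis (Fin n) K (Fin (d + 1) → K)) :
    Matrix (Fin (d + 1)) (Fin (d + 1)) K ≃ₐ[K] Matrix (Fin n) (Fin n) K :=
  (Matrix.toLinAlgEquiv').trans (LinearMap.toMatrixAlgEquiv b)

lemma phi_apply {n : ℕ} (b : Basis (Fin n) K (Fin (d + 1) → K))
    (X : Matrix (Fin (d + 1)) (Fin (d + 1)) K) :
    LinearMap.toMatrix b b (Matrix.toLin' X) = phi b X := rfl

lemma basis_card {n : ℕ} (b : Basis (Fin n) K (Fin (d + 1) → K)) : n = d + 1 := by
  have := Module.finrank_eq_card_basis b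
  simp at this
  omega

lemma kS_isDiag : (kS K d).IsDiag := by
  intro i j h
  simp only [kS]
  exact Matrix.diagonal_apply_ne _ h

lemma tri_std [CharZero K] (E : Matrix (Fin (d + 1)) (Fin (d + 1)) K)
    (h : ad3 K (kS K d) E = 0) (i j : Fin (d + 1)) (hij : (i : ℕ) + 1 < j ∨ (j : ℕ) + 1 < i) :
    E i j = 0 := by
  have hD := kS_isDiag (K := K) (d := d)
  have h1 := congrFun (congrFun h i) j
  simp only [ad3, Matrix.sub_apply, Matrix.add_apply, Matrix.smul_apply, smul_eq_mul,
    Matrix.zero_apply, Matrix.mul_assoc, diag_mul' hD] at h1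
  have e1 : (E * (kS K d * (kS K d * kS K d))) i j =
      E i j * kS K d j j * kS K d j j * kS K d j j := by
    rw [← Matrix.mul_assoc, ← Matrix.mul_assoc, mul_diag' hD, mul_diag' hD, mul_diag' hD]
  have e2 : (E * (kS K d * kS K d)) i j = E i j * kS K d j j * kS K d j j := by
    rw [← Matrix.mul_assoc, mul_diag' hD, mul_diag' hD]
  rw [e1, e2, mul_diag' hD] at h1
  simp only [kS, Matrix.diagonal_apply_eq] at h1
  have h2 : (8 * (((j : ℕ) : K) - (i : ℕ)) * ((((j : ℕ) : K) - (i : ℕ)) - 1) *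
      ((((j : ℕ) : K) - (i : ℕ)) + 1)) * E i j = 0 := by
    linear_combination h1
  refine (mul_eq_zero.mp h2).resolve_left ?_
  have f1 : (((j : ℕ) : K) - (i : ℕ)) = ((((j : ℕ) : ℤ) - (i : ℕ) : ℤ) : K) := by push_cast; ring
  have f2 : ((((j : ℕ) : K) - (i : ℕ)) - 1) = ((((j : ℕ) : ℤ) - (i : ℕ) - 1 : ℤ) : K) := by
    push_cast; ring
  have f3 : ((((j : ℕ) : K) - (i : ℕ)) + 1) = ((((j : ℕ) : ℤ) - (i : ℕ) + 1 : ℤ) : K) := by
    push_cast; ring
  rw [f2, f3, f1]
  refine mul_ne_zero (mul_ne_zero (mul_ne_zero (by norm_num) ?_) ?_) ?_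
  · exact Int.cast_ne_zero.mpr (by omega)
  · exact Int.cast_ne_zero.mpr (by omega)
  · exact Int.cast_ne_zero.mpr (by omega)

lemma phi_rel1 {n : ℕ} (b : Basis (Fin n) K (Fin (d + 1) → K)) :
    phi b (kA K d) * phi b (kA K d) * phi b (kS K d) -
      (2 : K) • (phi b (kA K d) * phi b (kS K d) * phi b (kA K d)) +
      phi b (kS K d) * phi b (kA K d) * phi b (kA K d) - (4 : K) • phi b (kS K d) = 0 := by
  have := congrArg (phi b) (rel1 (K := K) (d := d))
  simpa only [map_sub, map_add, map_mul, map_smul, map_zero] using this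

lemma phi_rel2 {n : ℕ} (b : Basis (Fin n) K (Fin (d + 1) → K)) :
    phi b (kS K d) * phi b (kS K d) * phi b (kA K d) -
      (2 : K) • (phi b (kS K d) * phi b (kA K d) * phi b (kS K d)) +
      phi b (kA K d) * phi b (kS K d) * phi b (kS K d) - (4 : K) • phi b (kA K d) = 0 := by
  have := congrArg (phi b) (rel2 (K := K) (d := d))
  simpa only [map_sub, map_add, map_mul, map_smul, map_zero] using this

lemma phi_ad3 {n : ℕ} (b : Basis (Fin n) K (Fin (d + 1) → K))
    (X Y : Matrix (Fin (d + 1)) (Fin (d + 1)) K) :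
    phi b (ad3 K X Y) = ad3 K (phi b X) (phi b Y) := by
  simp only [ad3, map_sub, map_add, map_mul, map_smul]

/-- the first two conditions of a Leonard triple -/
lemma span_of_triple [CharZero K] (E : Matrix (Fin (d + 1)) (Fin (d + 1)) K)
    (h1 : DiagTriTri (toLin' (kA K d)) (toLin' (kS K d)) (toLin' E))
    (h2 : DiagTriTri (toLin' (kS K d)) (toLin' (kA K d)) (toLin' E)) :
    ∃ a b c k l : K, E = a • 1 + b • kA K d + c • kS K d + k • (kA K d * kS K d) +
      l • (kS K d * kA K d) := by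
  apply span_of_rel
  · apply tri_std
    obtain ⟨n, b, hD, hA, hE⟩ := h2
    rw [phi_apply] at hD hA hE
    apply (phi b).injective
    rw [phi_ad3, map_zero]
    exact ad3_of_tri hD hA hE (phi_rel2 b)
  · obtain ⟨n, b, hD, hA, hE⟩ := h1
    rw [phi_apply] at hD hA hE
    apply (phi b).injective
    rw [phi_ad3, map_zero]
    exact ad3_of_tri hD hA hE (phi_rel1 b)

/-! ### The conditions on the coefficients when `A A*` and `A* A` occur with opposite
coefficients -/

/-- In a basis where `D` is diagonal and `N` irreducible tridiagonal, `N - a - c D` is not an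
eigenvector of `ad D` for an eigenvalue `w ≠ 0`. -/
lemma not_eig {n : ℕ} (hn : 2 ≤ n) {D N : Matrix (Fin n) (Fin n) K} (hD : D.IsDiag)
    (hN : IrredTridiag N) (a c w : K) (hw : w ≠ 0) (h2 : (2 : K) ≠ 0)
    (h : D * (N - a • 1 - c • D) - (N - a • 1 - c • D) * D = w • (N - a • 1 - c • D)) :
    False := by
  have h01 := congrFun (congrFun h ⟨0, by omega⟩) ⟨1, by omega⟩
  have h10 := congrFun (congrFun h ⟨1, by omega⟩) ⟨0, by omega⟩
  have d01 : D ⟨0, by omega⟩ ⟨1, by omega⟩ = 0 := hD (by simp)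
  have d10 : D ⟨1, by omega⟩ ⟨0, by omega⟩ = 0 := hD (by simp)
  have o01 : (1 : Matrix (Fin n) (Fin n) K) ⟨0, by omega⟩ ⟨1, by omega⟩ = 0 :=
    Matrix.one_apply_ne (by simp)
  have o10 : (1 : Matrix (Fin n) (Fin n) K) ⟨1, by omega⟩ ⟨0, by omega⟩ = 0 :=
    Matrix.one_apply_ne (by simp)
  rw [Matrix.sub_apply, diag_mul' hD, mul_diag' hD] at h01 h10
  simp only [Matrix.sub_apply, Matrix.smul_apply, smul_eq_mul, d01, d10, o01, o10, mul_zero,
    sub_zero] at h01 h10
  have n01 := hN.2 ⟨0, by omega⟩ ⟨1, by omega⟩ (by simp)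
  have n10 := hN.2 ⟨1, by omega⟩ ⟨0, by omega⟩ (by simp)
  have e1 : D ⟨0, by omega⟩ ⟨0, by omega⟩ - D ⟨1, by omega⟩ ⟨1, by omega⟩ = w := by
    have : (D ⟨0, by omega⟩ ⟨0, by omega⟩ - D ⟨1, by omega⟩ ⟨1, by omega⟩ - w) *
        N ⟨0, by omega⟩ ⟨1, by omega⟩ = 0 := by linear_combination h01
    have := (mul_eq_zero.mp this).resolve_right n01
    linear_combination this
  have e2 : D ⟨1, by omega⟩ ⟨1, by omega⟩ - D ⟨0, by omega⟩ ⟨0, by omega⟩ = w := by
    have : (D ⟨1, by omega⟩ ⟨1, by omega⟩ - D ⟨0, by omega⟩ ⟨0, by omega⟩ - w) *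
        N ⟨1, by omega⟩ ⟨0, by omega⟩ = 0 := by linear_combination h10
    have := (mul_eq_zero.mp this).resolve_right n10
    linear_combination this
  have : (2 : K) * w = 0 := by linear_combination -e1 - e2
  exact hw ((mul_eq_zero.mp this).resolve_left h2)

/-- the conditions `c₁² ≠ c₃²` and `c₂² ≠ c₃²` -/
lemma cond_adj {n : ℕ} (hn : 2 ≤ n) {D M N : Matrix (Fin n) (Fin n) K} (hD : D.IsDiag)
    (hN : IrredTridiag N) (h2 : (2 : K) ≠ 0)
    (hrel : D * D * M - (2 : K) • (D * M * D) + M * D * D - (4 : K) • M = 0)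
    (a b c e : K) (hE : N = a • 1 + b • M + c • D + e • (M * D - D * M)) :
    b ^ 2 ≠ 4 * e ^ 2 := by
  intro hbe
  have h3 : (b - 2 * e) * (b + 2 * e) = 0 := by linear_combination hbe
  have hN' : N - a • 1 - c • D = b • M + e • (M * D - D * M) := by
    rw [hE]; abel
  have comm : D * (N - a • 1 - c • D) - (N - a • 1 - c • D) * D =
      b • (D * M - M * D) - (4 * e) • M := by
    rw [hN']
    have hrel' : M * D * D = (4 : K) • M - D * D * M + (2 : K) • (D * M * D) := by
      have := sub_eq_zero.mp hrel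
      rw [← this]; abel
    simp only [mul_add, add_mul, mul_sub, sub_mul, Matrix.mul_smul, Matrix.smul_mul,
      smul_sub, smul_add, ← Matrix.mul_assoc]
    rw [hrel']
    module
  rcases mul_eq_zero.mp h3 with h | h
  · refine not_eig hn hD hN a c (-2) (by simpa using h2) h2 ?_
    rw [comm, hN']
    have hb : b = 2 * e := by linear_combination h
    subst hb
    module
  · refine not_eig hn hD hN a c 2 h2 h2 ?_
    rw [comm, hN']
    have hb : b = -(2 * e) := by linear_combination h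
    subst hb
    module

end Pool.Agent.T9h69.Leonard
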