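import Pool.Agent.T9h69.Leonard3

namespace Pool.Agent.T9h69.Leonard

open Matrix Module

variable {K : Type*} [Field K]

section tridiag
variable {n : ℕ}

/-- the two commutation relations of `C = M S - S M` -/
lemma comm_AC {A S : Matrix (Fin n) (Fin n) K}
    (h : A * A * S - (2 : K) • (A * S * A) + S * A * A - (4 : K) • S = 0) :
    A * (A * S - S * A) - (A * S - S * A) * A = (4 : K) • S := by
  have h' := sub_eq_zero.mp h
  rw [← h']
  simp only [mul_sub, sub_mul, ← Matrix.mul_assoc]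
  module

lemma comm_SC {A S : Matrix (Fin n) (Fin n) K}
    (h : S * S * A - (2 : K) • (S * A * S) + A * S * S - (4 : K) • A = 0) :
    S * (A * S - S * A) - (A * S - S * A) * S = (-4 : K) • A := by
  have h' := sub_eq_zero.mp h
  rw [neg_smul, ← h']
  simp only [mul_sub, sub_mul, ← Matrix.mul_assoc]
  module

/-- the eigenvalues `θ_i` of `D` satisfy `x³ = 4 μ x` for `x = θ_i - θ_j`, `A_{ij} ≠ 0` -/
lemma cube_rel {D A S : Matrix (Fin n) (Fin n) K} (hD : D.IsDiag)
    (h1 : A * A * S - (2 : K) • (A * S * A) + S * A * A - (4 : K) • S = 0)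
    (h2 : S * S * A - (2 : K) • (S * A * S) + A * S * S - (4 : K) • A = 0)
    (a b c e : K) (hE : D = a • 1 + b • A + c • S + e • (A * S - S * A)) (i j : Fin n)
    (hij : A i j ≠ 0) :
    (D i i - D j j) ^ 3 = 4 * (b ^ 2 + c ^ 2 - 4 * e ^ 2) * (D i i - D j j) := by
  have hAC := comm_AC h1
  have hSC := comm_SC h2
  obtain ⟨C, hC⟩ : ∃ C, C = A * S - S * A := ⟨_, rfl⟩
  rw [← hC] at hAC hSC hE
  have e1 : D * A - A * D = -(c • C) - (4 * e) • S := by
    rw [hE]
    have : D * A - A * D = c • (S * A - A * S) - e • (A * C - C * A) := by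
      rw [hE]
      simp only [add_mul, mul_add, Matrix.smul_mul, Matrix.mul_smul, Matrix.one_mul, Matrix.mul_one]
      module
    rw [← hE, this, hAC, hC]
    module
  have e2 : D * S - S * D = b • C + (4 * e) • A := by
    have : D * S - S * D = b • (A * S - S * A) - e • (S * C - C * S) := by
      rw [hE]
      simp only [add_mul, mul_add, Matrix.smul_mul, Matrix.mul_smul, Matrix.one_mul, Matrix.mul_one]
      module
    rw [this, hSC, ← hC]
    module
  have e3 : D * C - C * D = (4 * b) • S - (4 * c) • A := by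
    have : D * C - C * D = b • (A * C - C * A) + c • (S * C - C * S) := by
      rw [hE]
      simp only [add_mul, mul_add, Matrix.smul_mul, Matrix.mul_smul, Matrix.one_mul, Matrix.mul_one]
      module
    rw [this, hAC, hSC]
    module
  have f1 := congrFun (congrFun e1 i) j
  have f2 := congrFun (congrFun e2 i) j
  have f3 := congrFun (congrFun e3 i) j
  simp only [Matrix.sub_apply, Matrix.add_apply, Matrix.neg_apply, Matrix.smul_apply, smul_eq_mul,
    diag_mul' hD, mul_diag' hD] at f1 f2 f3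
  have key : ((D i i - D j j) ^ 3 - 4 * (b ^ 2 + c ^ 2 - 4 * e ^ 2) * (D i i - D j j)) * A i j
      = 0 := by
    linear_combination ((D i i - D j j) ^ 2 - 4 * b ^ 2) * f1 +
      (-c * (D i i - D j j) - 4 * e * b) * f3 + (-4 * e * (D i i - D j j) - 4 * b * c) * f2
  exact sub_eq_zero.mp ((mul_eq_zero.mp key).resolve_right hij)

/-- if `D` is diagonal and all neighbouring eigenvalues agree, then `D` is scalar -/
lemma scalar_of_adj {D : Matrix (Fin n) (Fin n) K} (hD : D.IsDiag)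
    (h : ∀ i j : Fin n, (i : ℕ) + 1 = j → D i i = D j j) : ∃ t : K, D = t • 1 := by
  rcases Nat.eq_zero_or_pos n with hn | hn
  · subst hn
    exact ⟨0, by ext i; exact i.elim0⟩
  · refine ⟨D ⟨0, hn⟩ ⟨0, hn⟩, ?_⟩
    have key : ∀ m : ℕ, ∀ hm : m < n, D ⟨m, hm⟩ ⟨m, hm⟩ = D ⟨0, hn⟩ ⟨0, hn⟩ := by
      intro m
      induction m with
      | zero => intro _; rfl
      | succ m ih =>
        intro hm
        rw [← ih (by omega)]
        exact (h ⟨m, by omega⟩ ⟨m + 1, hm⟩ rfl).symm
    ext i j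
    by_cases hij : i = j
    · subst hij
      simp [key i i.2]
    · rw [hD hij, Matrix.smul_apply, Matrix.one_apply_ne hij, smul_zero]

lemma cond_mu {D A S : Matrix (Fin n) (Fin n) K} (hD : D.IsDiag) (hA : IrredTridiag A)
    (h1 : A * A * S - (2 : K) • (A * S * A) + S * A * A - (4 : K) • S = 0)
    (h2 : S * S * A - (2 : K) • (S * A * S) + A * S * S - (4 : K) • A = 0)
    (a b c e : K) (hE : D = a • 1 + b • A + c • S + e • (A * S - S * A))
    (hns : ∀ t : K, D ≠ t • 1) : b ^ 2 + c ^ 2 ≠ 4 * e ^ 2 := by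
  intro hmu
  obtain ⟨t, ht⟩ := scalar_of_adj hD (fun i j hij => by
    have h3 := cube_rel hD h1 h2 a b c e hE i j (hA.2 i j (Or.inl hij))
    have h4 : (D i i - D j j) ^ 3 = 0 := by
      rw [h3, show b ^ 2 + c ^ 2 - 4 * e ^ 2 = 0 by rw [hmu]; ring]; ring
    exact sub_eq_zero.mp (pow_eq_zero_iff (three_ne_zero) |>.mp h4))
  exact hns t ht

/-- the outermost nonzero entries of a product of two banded matrices -/
lemma band_mul {M N : Matrix (Fin n) (Fin n) K} (p q : ℕ)
    (hM : ∀ i j : Fin n, (i : ℕ) + p < j → M i j = 0)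
    (hN : ∀ i j : Fin n, (i : ℕ) + q < j → N i j = 0) (i m j : Fin n)
    (him : (i : ℕ) + p = m) (hmj : (m : ℕ) + q = j) : (M * N) i j = M i m * N m j := by
  rw [Matrix.mul_apply, Finset.sum_eq_single m]
  · intro k _ hk
    rcases Nat.lt_or_ge (k : ℕ) (m : ℕ) with h | h
    · rw [hN k j (by omega), mul_zero]
    · have : (k : ℕ) ≠ m := fun h' => hk (Fin.ext h')
      rw [hM i k (by omega), zero_mul]
  · intro h; exact absurd (Finset.mem_univ _) h

lemma band_mul_zero {M N : Matrix (Fin n) (Fin n) K} (p q : ℕ)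
    (hM : ∀ i j : Fin n, (i : ℕ) + p < j → M i j = 0)
    (hN : ∀ i j : Fin n, (i : ℕ) + q < j → N i j = 0) (i j : Fin n)
    (hij : (i : ℕ) + (p + q) < j) : (M * N) i j = 0 := by
  rw [Matrix.mul_apply]
  apply Finset.sum_eq_zero
  intro k _
  rcases Nat.lt_or_ge ((i : ℕ) + p) (k : ℕ) with h | h
  · rw [hM i k h, zero_mul]
  · rw [hN k j (by omega), mul_zero]

/-- for `n ≥ 4` the coefficients of `A S` and `S A` are opposite -/
lemma opp_of_four (hn : 4 ≤ n) {D A S : Matrix (Fin n) (Fin n) K} (hD : D.IsDiag)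
    (hA : IrredTridiag A) (hS : IrredTridiag S)
    (h1 : A * A * S - (2 : K) • (A * S * A) + S * A * A - (4 : K) • S = 0)
    (a b c k l : K) (hE : D = a • 1 + b • A + c • S + k • (A * S) + l • (S * A)) :
    k + l = 0 := by
  have bA : ∀ i j : Fin n, (i : ℕ) + 1 < j → A i j = 0 := fun i j h => hA.1 i j (Or.inl h)
  have bS : ∀ i j : Fin n, (i : ℕ) + 1 < j → S i j = 0 := fun i j h => hS.1 i j (Or.inl h)
  obtain ⟨i0, h0⟩ : ∃ i : Fin n, (i : ℕ) = 0 := ⟨⟨0, by omega⟩, rfl⟩
  obtain ⟨i1, h1'⟩ : ∃ i : Fin n, (i : ℕ) = 1 := ⟨⟨1, by omega⟩, rfl⟩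
  obtain ⟨i2, h2⟩ : ∃ i : Fin n, (i : ℕ) = 2 := ⟨⟨2, by omega⟩, rfl⟩
  obtain ⟨i3, h3⟩ : ∃ i : Fin n, (i : ℕ) = 3 := ⟨⟨3, by omega⟩, rfl⟩
  have two : ∀ (M N : Matrix (Fin n) (Fin n) K) (_ : ∀ i j : Fin n, (i : ℕ) + 1 < j → M i j = 0)
      (_ : ∀ i j : Fin n, (i : ℕ) + 1 < j → N i j = 0) (i m j : Fin n),
      (i : ℕ) + 1 = m → (m : ℕ) + 1 = j → (M * N) i j = M i m * N m j :=
    fun M N hM hN i m j => band_mul 1 1 hM hN i m j
  have dz : ∀ i m j : Fin n, (i : ℕ) + 1 = m → (m : ℕ) + 1 = j →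
      k * (A i m * S m j) + l * (S i m * A m j) = 0 := by
    intro i m j him hmj
    have h5 := congrFun (congrFun hE i) j
    have hij : i ≠ j := by intro h; rw [h] at him; omega
    simp only [Matrix.add_apply, Matrix.smul_apply, smul_eq_mul] at h5
    rw [hD hij, Matrix.one_apply_ne hij, bA i j (by omega), bS i j (by omega),
      two A S bA bS i m j him hmj, two S A bS bA i m j him hmj] at h5
    linear_combination -h5
  have e02 := dz i0 i1 i2 (by omega) (by omega)
  have e13 := dz i1 i2 i3 (by omega) (by omega)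
  have three : ∀ (L M N : Matrix (Fin n) (Fin n) K)
      (_ : ∀ i j : Fin n, (i : ℕ) + 1 < j → L i j = 0)
      (_ : ∀ i j : Fin n, (i : ℕ) + 1 < j → M i j = 0)
      (_ : ∀ i j : Fin n, (i : ℕ) + 1 < j → N i j = 0),
      (L * M * N) i0 i3 = L i0 i1 * M i1 i2 * N i2 i3 := by
    intro L M N hL hM hN
    rw [band_mul 2 1 (fun i j h => band_mul_zero 1 1 hL hM i j (by omega)) hN i0 i2 i3 (by omega)
      (by omega), band_mul 1 1 hL hM i0 i1 i2 (by omega) (by omega)]
  have e03 := congrFun (congrFun h1 i0) i3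
  simp only [Matrix.sub_apply, Matrix.add_apply, Matrix.smul_apply, smul_eq_mul,
    Matrix.zero_apply] at e03
  rw [three A A S bA bA bS, three A S A bA bS bA, three S A A bS bA bA,
    bS i0 i3 (by omega)] at e03
  have na1 := hA.2 i1 i2 (Or.inl (by omega))
  have na2 := hA.2 i2 i3 (Or.inl (by omega))
  have ns0 := hS.2 i0 i1 (Or.inl (by omega))
  have key : (k + l) ^ 2 * (S i0 i1 * A i1 i2 * A i2 i3) = 0 := by
    linear_combination k ^ 2 * e03 - k * A i0 i1 * e13 + (2 * k + l) * A i2 i3 * e02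
  have := (mul_eq_zero.mp key).resolve_right (mul_ne_zero (mul_ne_zero ns0 na1) na2)
  exact pow_eq_zero_iff (two_ne_zero) |>.mp this

end tridiag

end Pool.Agent.T9h69.Leonard
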