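import Pool.Agent.T9h69.Leonard4

namespace Pool.Agent.T9h69.Leonard

open Matrix Module

variable {K : Type*} [Field K]

/-- The scalar computation for `d = 2`.  Here `A` has diagonal `a0, a1, a2`, upper diagonal
`u0, u1`, lower diagonal `v0, v1` and `S` has diagonal `s0, s1, s2`, upper diagonal
`p0, p1` and lower diagonal `q0, q1`. -/
lemma scalar_two (h2 : (2 : K) ≠ 0)
    (b c k l a0 a1 a2 u0 u1 v0 v1 s0 s1 s2 p0 p1 q0 q1 : K)
    (hu0 : u0 ≠ 0) (hu1 : u1 ≠ 0) (hv0 : v0 ≠ 0) (hv1 : v1 ≠ 0) (hp0 : p0 ≠ 0) (hp1 : p1 ≠ 0)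
    (hq0 : q0 ≠ 0) (hq1 : q1 ≠ 0) (hkl : k + l ≠ 0)
    (d02 : k * (u0 * p1) + l * (p0 * u1) = 0)
    (d20 : k * (v1 * q0) + l * (q1 * v0) = 0)
    (d01 : b * u0 + c * p0 + k * (a0 * p0 + u0 * s1) + l * (s0 * u0 + p0 * a1) = 0)
    (d12 : b * u1 + c * p1 + k * (a1 * p1 + u1 * s2) + l * (s1 * u1 + p1 * a2) = 0)
    (E2 : a0 * p0 * u1 + u0 * s1 * u1 + u0 * p1 * a2 = 0)
    (E4 : a2 * q1 * v0 + v1 * s1 * v0 + v1 * q0 * a0 = 0)
    (F2 : s0 * u0 * p1 + p0 * a1 * p1 + p0 * u1 * s2 = 0)
    (F4 : s2 * v1 * q0 + q1 * a1 * q0 + q1 * v0 * s0 = 0)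
    (G0 : a0 * s0 * a0 + a0 * p0 * v0 + u0 * q0 * a0 + u0 * s1 * v0 = 0)
    (G2 : a2 * s2 * a2 + a2 * q1 * u1 + v1 * p1 * a2 + v1 * s1 * u1 = 0)
    (tA : a0 + a1 + a2 = 0) (tS : s0 + s1 + s2 = 0)
    (hdet : a0 * a1 * a2 - a0 * (u1 * v1) - a2 * (u0 * v0) = 0) :
    b = 0 ∧ c = 0 ∧ k ≠ 0 ∧ l ≠ 0 := by
  have hk : k ≠ 0 := by
    intro hk
    rw [hk, zero_mul, zero_add] at d02
    have : l = 0 := (mul_eq_zero.mp d02).resolve_right (mul_ne_zero hp0 hu1)
    exact hkl (by rw [hk, this, add_zero])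
  have hl : l ≠ 0 := by
    intro hl
    rw [hl, zero_mul, add_zero] at d02
    exact hk ((mul_eq_zero.mp d02).resolve_right (mul_ne_zero hu0 hp1))
  obtain ⟨r, hr⟩ : ∃ r, p0 = r * u0 := ⟨p0 / u0, by field_simp⟩
  obtain ⟨t, ht⟩ : ∃ t, q0 = t * v0 := ⟨q0 / v0, by field_simp⟩
  obtain ⟨q, hq⟩ : ∃ q, l = -(q * k) := ⟨-(l / k), by field_simp⟩
  have hr0 : r ≠ 0 := by rintro rfl; exact hp0 (by rw [hr, zero_mul])
  have ht0 : t ≠ 0 := by rintro rfl; exact hq0 (by rw [ht, zero_mul])
  have hqz : q ≠ 0 := by rintro rfl; exact hl (by rw [hq]; ring)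
  have hq1' : q - 1 ≠ 0 := by
    intro h
    exact hkl (by rw [hq, show q = 1 by linear_combination h]; ring)
  subst hr ht hq
  -- `p1 = q r u1`, `q q1 = t v1`
  have hp : p1 = q * r * u1 := by
    have : (k * u0) * (p1 - q * r * u1) = 0 := by linear_combination d02
    have := (mul_eq_zero.mp this).resolve_left (mul_ne_zero hk hu0)
    linear_combination this
  have hqq : q * q1 = t * v1 := by
    have : (k * v0) * (q * q1 - t * v1) = 0 := by linear_combination -d20
    have := (mul_eq_zero.mp this).resolve_left (mul_ne_zero hk hv0)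
    linear_combination this
  subst hp
  -- the relations without the off diagonal entries
  have E2' : a0 * r + s1 + q * r * a2 = 0 := by
    have : (u0 * u1) * (a0 * r + s1 + q * r * a2) = 0 := by linear_combination E2
    exact (mul_eq_zero.mp this).resolve_left (mul_ne_zero hu0 hu1)
  have E4' : a2 * t + q * s1 + q * t * a0 = 0 := by
    have : (v0 * v1) * (a2 * t + q * s1 + q * t * a0) = 0 := by
      linear_combination q * E4 - a2 * v0 * hqq
    exact (mul_eq_zero.mp this).resolve_left (mul_ne_zero hv0 hv1)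
  have F2' : q * s0 + q * r * a1 + s2 = 0 := by
    have : (r * u0 * u1) * (q * s0 + q * r * a1 + s2) = 0 := by linear_combination F2
    exact (mul_eq_zero.mp this).resolve_left (mul_ne_zero (mul_ne_zero hr0 hu0) hu1)
  have F4' : q * s2 + t * a1 + s0 = 0 := by
    have : (t * v0 * v1) * (q * s2 + t * a1 + s0) = 0 := by
      linear_combination q * F4 - (a1 * t * v0 + v0 * s0) * hqq
    exact (mul_eq_zero.mp this).resolve_left (mul_ne_zero (mul_ne_zero ht0 hv0) hv1)
  have g1 : s0 = r * a0 := by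
    have : (q - 1) * (s0 - r * a0) = 0 := by
      linear_combination F2' + E2' - (1 : K) * tS - q * r * tA
    have := (mul_eq_zero.mp this).resolve_left hq1'
    linear_combination this
  have g2 : s2 = q * r * a2 := by linear_combination tS - g1 - E2'
  have g3 : q * s2 = t * a2 := by
    have : (q - 1) * (q * s2 - t * a2) = 0 := by
      linear_combination q * F4' + E4' - q * tS - q * t * tA
    have := (mul_eq_zero.mp this).resolve_left hq1'
    linear_combination this
  have g4 : s0 = t * a0 := by linear_combination F4' - g3 - t * tA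
  -- all diagonal entries vanish
  have G0' : a0 * s0 * a0 + (u0 * v0) * (a0 * (r + t) + s1) = 0 := by linear_combination G0
  have G2' : q * (a2 * s2 * a2) + (u1 * v1) * (a2 * (t + q * q * r) + q * s1) = 0 := by
    linear_combination q * G2 - a2 * u1 * hqq
  have hx : u0 * v0 ≠ 0 := mul_ne_zero hu0 hv0
  have hy : u1 * v1 ≠ 0 := mul_ne_zero hu1 hv1
  have z1 : a0 = 0 → a2 = 0 := by
    intro h
    have h1 : (u0 * v0) * s1 = 0 := by
      rw [h] at G0'
      linear_combination G0'
    have h2 := (mul_eq_zero.mp h1).resolve_left hx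
    have h3 : (q * r) * a2 = 0 := by
      rw [h, h2] at E2'
      linear_combination E2'
    exact (mul_eq_zero.mp h3).resolve_left (mul_ne_zero hqz hr0)
  have z2 : a2 = 0 → a0 = 0 := by
    intro h
    have h1 : (q * (u1 * v1)) * s1 = 0 := by
      rw [h] at G2'
      linear_combination G2'
    have h2 := (mul_eq_zero.mp h1).resolve_left (mul_ne_zero hqz hy)
    have h3 : r * a0 = 0 := by
      rw [h, h2] at E2'
      linear_combination E2'
    exact (mul_eq_zero.mp h3).resolve_left hr0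
  have a00 : a0 = 0 := by
    by_contra ha0
    have ha2 : a2 ≠ 0 := fun h => ha0 (z2 h)
    have hrt : r = t := by
      have : a0 * (r - t) = 0 := by linear_combination g4 - g1
      have := (mul_eq_zero.mp this).resolve_left ha0
      linear_combination this
    subst hrt
    have hqm : q = -1 := by
      have : (r * a2 * (q - 1)) * (q + 1) = 0 := by
        linear_combination g3 - q * g2
      have := (mul_eq_zero.mp this).resolve_left (mul_ne_zero (mul_ne_zero hr0 ha2) hq1')
      linear_combination this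
    subst hqm
    have x1 : a0 ^ 3 + (a0 + a2) * (u0 * v0) = 0 := by
      have : r * (a0 ^ 3 + (a0 + a2) * (u0 * v0)) = 0 := by
        linear_combination G0' - a0 ^ 2 * g1 - (u0 * v0) * E2'
      exact (mul_eq_zero.mp this).resolve_left hr0
    have y1 : a2 ^ 3 + (a0 + a2) * (u1 * v1) = 0 := by
      have : r * (a2 ^ 3 + (a0 + a2) * (u1 * v1)) = 0 := by
        linear_combination G2' + a2 ^ 2 * g2 + (u1 * v1) * E2'
      exact (mul_eq_zero.mp this).resolve_left hr0
    have : (2 : K) * (a0 ^ 2 * a2 ^ 2) = 0 := by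
      linear_combination -(a0 + a2) * hdet + a0 * y1 * (-1 : K) + a2 * x1 * (-1 : K) +
        a0 * a2 * (a0 + a2) * tA
    exact (mul_ne_zero h2 (mul_ne_zero (pow_ne_zero 2 ha0) (pow_ne_zero 2 ha2))) this
  have a20 := z1 a00
  subst a00 a20
  have a10 : a1 = 0 := by linear_combination tA
  subst a10
  have s00 : s0 = 0 := by linear_combination g1
  have s20 : s2 = 0 := by linear_combination g2
  have s10 : s1 = 0 := by linear_combination E2'
  subst s00 s20 s10
  have w1 : b + c * r = 0 := by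
    have : u0 * (b + c * r) = 0 := by linear_combination d01
    exact (mul_eq_zero.mp this).resolve_left hu0
  have w2 : b + c * (q * r) = 0 := by
    have : u1 * (b + c * (q * r)) = 0 := by linear_combination d12
    exact (mul_eq_zero.mp this).resolve_left hu1
  have hc : c = 0 := by
    have : ((q - 1) * r) * c = 0 := by linear_combination w2 - w1
    exact (mul_eq_zero.mp this).resolve_left (mul_ne_zero hq1' hr0)
  subst hc
  exact ⟨by linear_combination w1, rfl, hk, hl⟩

/-- `A A* A = 0` for `d = 2` -/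
lemma ASA_two : kA K 2 * kS K 2 * kA K 2 = 0 := by
  ext i j
  fin_cases i <;> fin_cases j <;>
    simp [kA, kS, Matrix.mul_apply, Fin.sum_univ_three, Matrix.diagonal]
  all_goals ring

/-- `A* A A* = 0` for `d = 2` -/
lemma SAS_two : kS K 2 * kA K 2 * kS K 2 = 0 := by
  ext i j
  fin_cases i <;> fin_cases j <;>
    simp [kA, kS, Matrix.mul_apply, Fin.sum_univ_three, Matrix.diagonal]

/-- `A A* = - A* A` for `d = 1` -/
lemma AS_one : kA K 1 * kS K 1 = -(kS K 1 * kA K 1) := by
  ext i j
  fin_cases i <;> fin_cases j <;>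
    simp [kA, kS, Matrix.mul_apply, Fin.sum_univ_two, Matrix.diagonal]
  all_goals ring

lemma trA_two : (kA K 2).trace = 0 := by
  simp [kA, Matrix.trace, Fin.sum_univ_three]

lemma trS_two : (kS K 2).trace = 0 := by
  simp [kS, Matrix.trace, Fin.sum_univ_three]
  ring

lemma detA_two : (kA K 2).det = 0 := by
  rw [Matrix.det_fin_three]
  simp [kA]

lemma cond_two (h2 : (2 : K) ≠ 0) {D A S : Matrix (Fin 3) (Fin 3) K} (hD : D.IsDiag)
    (hA : IrredTridiag A) (hS : IrredTridiag S) (hASA : A * S * A = 0) (hSAS : S * A * S = 0)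
    (tA : A.trace = 0) (tS : S.trace = 0) (dA : A.det = 0) (a b c k l : K)
    (hE : D = a • 1 + b • A + c • S + k • (A * S) + l • (S * A)) (hkl : k + l ≠ 0) :
    b = 0 ∧ c = 0 ∧ k ≠ 0 ∧ l ≠ 0 := by
  have A02 : A 0 2 = 0 := hA.1 0 2 (by simp)
  have A20 : A 2 0 = 0 := hA.1 2 0 (by simp)
  have S02 : S 0 2 = 0 := hS.1 0 2 (by simp)
  have S20 : S 2 0 = 0 := hS.1 2 0 (by simp)
  have A01 : A 0 1 ≠ 0 := hA.2 0 1 (by simp)
  have A12 : A 1 2 ≠ 0 := hA.2 1 2 (by simp)
  have A10 : A 1 0 ≠ 0 := hA.2 1 0 (by simp)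
  have A21 : A 2 1 ≠ 0 := hA.2 2 1 (by simp)
  have S01 : S 0 1 ≠ 0 := hS.2 0 1 (by simp)
  have S12 : S 1 2 ≠ 0 := hS.2 1 2 (by simp)
  have S10 : S 1 0 ≠ 0 := hS.2 1 0 (by simp)
  have S21 : S 2 1 ≠ 0 := hS.2 2 1 (by simp)
  have ent : ∀ i j : Fin 3, i ≠ j → b * A i j + c * S i j + k * (A * S) i j + l * (S * A) i j
      = 0 := by
    intro i j hij
    have h5 := congrFun (congrFun hE i) j
    simp only [Matrix.add_apply, Matrix.smul_apply, smul_eq_mul] at h5
    rw [hD hij, Matrix.one_apply_ne hij] at h5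
    linear_combination -h5
  have e02 := ent 0 2 (by decide)
  have e20 := ent 2 0 (by decide)
  have e01 := ent 0 1 (by decide)
  have e12 := ent 1 2 (by decide)
  have m02 := congrFun (congrFun hASA 0) 2
  have m20 := congrFun (congrFun hASA 2) 0
  have m00 := congrFun (congrFun hASA 0) 0
  have m22 := congrFun (congrFun hASA 2) 2
  have n02 := congrFun (congrFun hSAS 0) 2
  have n20 := congrFun (congrFun hSAS 2) 0
  rw [Matrix.det_fin_three] at dA
  simp only [Matrix.trace, Fin.sum_univ_three, Matrix.diag_apply] at tA tS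
  simp only [Matrix.mul_apply, Fin.sum_univ_three, A02, A20, S02, S20, Matrix.zero_apply]
    at e02 e20 e01 e12 m02 m20 m00 m22 n02 n20 dA
  exact scalar_two h2 b c k l (A 0 0) (A 1 1) (A 2 2) (A 0 1) (A 1 2) (A 1 0) (A 2 1)
    (S 0 0) (S 1 1) (S 2 2) (S 0 1) (S 1 2) (S 1 0) (S 2 1) A01 A12 A10 A21 S01 S12 S10 S21 hkl
    (by linear_combination e02) (by linear_combination e20) (by linear_combination e01)
    (by linear_combination e12) (by linear_combination m02) (by linear_combination m20)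
    (by linear_combination n02) (by linear_combination n20) (by linear_combination m00)
    (by linear_combination m22) tA tS (by linear_combination dA)

variable {d : ℕ}

lemma phi_trace {n : ℕ} (b : Basis (Fin n) K (Fin (d + 1) → K))
    (X : Matrix (Fin (d + 1)) (Fin (d + 1)) K) : (phi b X).trace = X.trace := by
  rw [← phi_apply, ← LinearMap.trace_eq_matrix_trace]
  exact Matrix.trace_toLin'_eq X

lemma phi_det {n : ℕ} (b : Basis (Fin n) K (Fin (d + 1) → K))
    (X : Matrix (Fin (d + 1)) (Fin (d + 1)) K) : (phi b X).det = X.det := by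
  rw [← phi_apply, LinearMap.det_toMatrix, LinearMap.det_toLin']

lemma phi_expr {n : ℕ} (B : Basis (Fin n) K (Fin (d + 1) → K))
    {E : Matrix (Fin (d + 1)) (Fin (d + 1)) K} {a b c k l : K}
    (hE : E = a • 1 + b • kA K d + c • kS K d + k • (kA K d * kS K d) +
      l • (kS K d * kA K d)) :
    phi B E = a • 1 + b • phi B (kA K d) + c • phi B (kS K d) +
      k • (phi B (kA K d) * phi B (kS K d)) + l • (phi B (kS K d) * phi B (kA K d)) := by
  rw [hE]
  simp only [map_add, map_mul, map_smul, map_one]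

lemma nec_comm [CharZero K] (hd : 1 ≤ d) (E : Matrix (Fin (d + 1)) (Fin (d + 1)) K)
    (h : IsLeonardTriple (toLin' (kA K d)) (toLin' (kS K d)) (toLin' E)) (a b c e : K)
    (hE : E = a • 1 + b • kA K d + c • kS K d + e • (kA K d * kS K d - kS K d * kA K d)) :
    b ^ 2 ≠ 4 * e ^ 2 ∧ c ^ 2 ≠ 4 * e ^ 2 ∧ b ^ 2 + c ^ 2 ≠ 4 * e ^ 2 := by
  have two : (2 : K) ≠ 0 := two_ne_zero
  have hE' : E = a • 1 + b • kA K d + c • kS K d + e • (kA K d * kS K d) +
      (-e) • (kS K d * kA K d) := by rw [hE]; module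
  obtain ⟨h1, h2, h3⟩ := h
  refine ⟨?_, ?_, ?_⟩
  · obtain ⟨n, B, hD, hA, hN⟩ := h2
    rw [phi_apply] at hD hA hN
    have hn := basis_card B
    refine cond_adj (by omega) hD hN two (phi_rel2 B) a b c e ?_
    rw [phi_expr B hE']
    module
  · obtain ⟨n, B, hD, hA, hN⟩ := h1
    rw [phi_apply] at hD hA hN
    have hn := basis_card B
    have := cond_adj (by omega) hD hN two (phi_rel1 B) a c b (-e) (by
      rw [phi_expr B hE']
      module)
    intro h5
    apply this
    rw [h5]; ring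
  · obtain ⟨n, B, hD, hA, hS⟩ := h3
    rw [phi_apply] at hD hA hS
    refine cond_mu hD hA (phi_rel1 B) (phi_rel2 B) a b c e ?_ ?_
    · rw [phi_expr B hE']
      module
    · intro t ht
      have hEt : E = t • 1 := by
        apply (phi B).injective
        rw [ht, map_smul, map_one]
      obtain ⟨m, B', hD', hA', hN'⟩ := h2
      rw [phi_apply] at hD' hA' hN'
      have hm := basis_card B'
      have h5 := hN'.2 ⟨0, by omega⟩ ⟨1, by omega⟩ (Or.inl rfl)
      rw [hEt, map_smul, map_one, Matrix.smul_apply, Matrix.one_apply_ne (by simp),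
        smul_zero] at h5
      exact h5 rfl

/-- the necessary conditions -/
theorem necessity [CharZero K] (E : Matrix (Fin (d + 1)) (Fin (d + 1)) K)
    (h : IsLeonardTriple (toLin' (kA K d)) (toLin' (kS K d)) (toLin' E)) :
    d = 0 ∨ (∃ a b c e : K,
      E = a • 1 + b • kA K d + c • kS K d + e • (kA K d * kS K d - kS K d * kA K d) ∧
      b ^ 2 ≠ 4 * e ^ 2 ∧ c ^ 2 ≠ 4 * e ^ 2 ∧ b ^ 2 + c ^ 2 ≠ 4 * e ^ 2) ∨
    (d = 2 ∧ ∃ a b c : K, E = a • 1 + b • (kA K d * kS K d) + c • (kS K d * kA K d) ∧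
      b ≠ 0 ∧ c ≠ 0) := by
  obtain ⟨a, b, c, k, l, hE⟩ := span_of_triple E h.1 h.2.1
  rcases Nat.eq_zero_or_pos d with hd | hd
  · exact Or.inl hd
  right
  by_cases hkl : k + l = 0
  · left
    have hE' : E = a • 1 + b • kA K d + c • kS K d + k • (kA K d * kS K d - kS K d * kA K d) := by
      rw [hE, show l = -k by linear_combination hkl]
      module
    exact ⟨a, b, c, k, hE', nec_comm hd E h a b c k hE'⟩
  · have h3 := h.2.2
    rcases Nat.lt_or_ge d 3 with h4 | h4
    · have h5 : d = 1 ∨ d = 2 := by omega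
      rcases h5 with rfl | rfl
      · left
        have hE' : E = a • 1 + b • kA K 1 + c • kS K 1 +
            ((k - l) / 2) • (kA K 1 * kS K 1 - kS K 1 * kA K 1) := by
          rw [hE, AS_one]
          module
        exact ⟨a, b, c, _, hE', nec_comm hd E h a b c _ hE'⟩
      · right
        refine ⟨rfl, ?_⟩
        obtain ⟨n, B, hD, hA, hS⟩ := h3
        rw [phi_apply] at hD hA hS
        have hn := basis_card B
        subst hn
        have hASA : phi B (kA K 2) * phi B (kS K 2) * phi B (kA K 2) = 0 := by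
          rw [← map_mul, ← map_mul, ASA_two, map_zero]
        have hSAS : phi B (kS K 2) * phi B (kA K 2) * phi B (kS K 2) = 0 := by
          rw [← map_mul, ← map_mul, SAS_two, map_zero]
        obtain ⟨hb, hc, hk, hl⟩ := cond_two two_ne_zero hD hA hS hASA hSAS
          (by rw [phi_trace, trA_two]) (by rw [phi_trace, trS_two]) (by rw [phi_det, detA_two])
          a b c k l (phi_expr B hE) hkl
        refine ⟨a, k, l, ?_, hk, hl⟩
        rw [hE, hb, hc]
        module
    · exfalso
      obtain ⟨n, B, hD, hA, hS⟩ := h3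
      rw [phi_apply] at hD hA hS
      have hn := basis_card B
      exact hkl (opp_of_four (by omega) hD hA hS (phi_rel1 B) a b c k l (phi_expr B hE))

end Pool.Agent.T9h69.Leonard
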