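import Pool.Agent.T9h69.Leonard5

namespace Pool.Agent.T9h69.Leonard

open Matrix Module Polynomial

variable {K : Type*} [Field K]

/-- A way to recognise irreducible tridiagonal matrices. -/
lemma tri_of_action {V : Type*} [AddCommGroup V] [Module K V] {n : ℕ} (b : Basis (Fin n) K V)
    (w : ℕ → V) (hb : ∀ i : Fin n, b i = w i) (Y : V →ₗ[K] V) (al be ga : ℕ → K)
    (hY : ∀ j < n, Y (w j) = al j • w j + be j • w (j + 1) + ga j • w (j - 1))
    (hbe : ∀ j, j + 1 < n → be j ≠ 0) (hbe' : ∀ j, j + 1 = n → be j = 0)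
    (hga : ∀ j, 0 < j → j < n → ga j ≠ 0) (hga0 : ga 0 = 0) :
    IrredTridiag (LinearMap.toMatrix b b Y) := by
  have key : ∀ i j : Fin n, LinearMap.toMatrix b b Y i j =
      (if i = j then al j else 0) + (if (j : ℕ) + 1 = i then be j else 0) +
      (if (i : ℕ) + 1 = j then ga j else 0) := by
    intro i j
    rw [LinearMap.toMatrix_apply, hb j, hY j j.2, map_add, map_add, map_smul, map_smul, map_smul,
      Finsupp.add_apply, Finsupp.add_apply, Finsupp.smul_apply, Finsupp.smul_apply,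
      Finsupp.smul_apply, smul_eq_mul, smul_eq_mul, smul_eq_mul]
    have e1 : (b.repr (w j)) i = if i = j then 1 else 0 := by
      rw [← hb j, Basis.repr_self, Finsupp.single_apply]
      by_cases h : j = i
      · rw [if_pos h, if_pos h.symm]
      · rw [if_neg h, if_neg (fun h' => h h'.symm)]
    have e2 : be j * (b.repr (w (j + 1))) i = if (j : ℕ) + 1 = i then be j else 0 := by
      by_cases h : (j : ℕ) + 1 < n
      · rw [show w ((j : ℕ) + 1) = b ⟨(j : ℕ) + 1, h⟩ from (hb ⟨(j : ℕ) + 1, h⟩).symm,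
          Basis.repr_self, Finsupp.single_apply]
        by_cases h' : (j : ℕ) + 1 = i
        · rw [if_pos (Fin.ext h'), if_pos h', mul_one]
        · rw [if_neg (fun h'' => h' (congrArg Fin.val h'')), if_neg h', mul_zero]
      · rw [hbe' j (by have := j.2; omega), zero_mul, if_neg]
        have := i.2; omega
    have e3 : ga j * (b.repr (w (j - 1))) i = if (i : ℕ) + 1 = j then ga j else 0 := by
      by_cases h : 0 < (j : ℕ)
      · have h1 : (j : ℕ) - 1 < n := by have := j.2; omega
        rw [show w ((j : ℕ) - 1) = b ⟨(j : ℕ) - 1, h1⟩ from (hb ⟨(j : ℕ) - 1, h1⟩).symm,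
          Basis.repr_self, Finsupp.single_apply]
        by_cases h' : (i : ℕ) + 1 = j
        · rw [if_pos (Fin.ext (by simp only; omega)), if_pos h', mul_one]
        · rw [if_neg (fun h'' => h' (by have := congrArg Fin.val h''; simp only at this; omega)),
            if_neg h', mul_zero]
      · have h0 : (j : ℕ) = 0 := by omega
        rw [h0, hga0, zero_mul, if_neg]
        omega
    rw [e1, e2, e3]
    by_cases h : i = j
    · rw [if_pos h, if_pos h, mul_one]
    · rw [if_neg h, if_neg h, mul_zero]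
  constructor
  · intro i j h
    rw [key, if_neg (by intro h'; rw [h'] at h; omega), if_neg (by omega), if_neg (by omega)]
    ring
  · intro i j h
    rw [key, if_neg (by intro h'; rw [h'] at h; omega)]
    rcases h with h | h
    · rw [if_neg (by omega), if_pos h, zero_add, zero_add]
      exact hga j (by omega) j.2
    · rw [if_pos h, if_neg (by omega), zero_add, add_zero]
      exact hbe j (by have := i.2; omega)

/-- A way to recognise diagonal matrices. -/
lemma diag_of_action {V : Type*} [AddCommGroup V] [Module K V] {n : ℕ} (b : Basis (Fin n) K V)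
    (X : V →ₗ[K] V) (x : Fin n → K) (hX : ∀ j, X (b j) = x j • b j) :
    (LinearMap.toMatrix b b X).IsDiag := by
  intro i j h
  rw [LinearMap.toMatrix_apply, hX, map_smul, Basis.repr_self, Finsupp.smul_apply,
    Finsupp.single_apply, if_neg (fun h' => h h'.symm), smul_zero]

/-- A builder for the three conditions. -/
lemma diagTriTri_of_action {V : Type*} [AddCommGroup V] [Module K V] {n : ℕ} [NeZero n]
    (hfin : Module.finrank K V = n) (w : ℕ → V) (X Y Z : V →ₗ[K] V) (x : ℕ → K)
    (hw : ∀ j < n, w j ≠ 0) (hX : ∀ j < n, X (w j) = x j • w j)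
    (hx : ∀ i < n, ∀ j < n, x i = x j → i = j)
    (al be ga : ℕ → K)
    (hY : ∀ j < n, Y (w j) = al j • w j + be j • w (j + 1) + ga j • w (j - 1))
    (hbe : ∀ j, j + 1 < n → be j ≠ 0) (hbe' : ∀ j, j + 1 = n → be j = 0)
    (hga : ∀ j, 0 < j → j < n → ga j ≠ 0) (hga0 : ga 0 = 0)
    (al' be' ga' : ℕ → K)
    (hZ : ∀ j < n, Z (w j) = al' j • w j + be' j • w (j + 1) + ga' j • w (j - 1))
    (hbe2 : ∀ j, j + 1 < n → be' j ≠ 0) (hbe2' : ∀ j, j + 1 = n → be' j = 0)
    (hga2 : ∀ j, 0 < j → j < n → ga' j ≠ 0) (hga20 : ga' 0 = 0) :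
    DiagTriTri X Y Z := by
  have hli : LinearIndependent K (fun i : Fin n => w i) := by
    refine Module.End.eigenvectors_linearIndependent' X (fun i : Fin n => x i) ?_ _ ?_
    · intro i j h
      exact Fin.ext (hx i i.2 j j.2 h)
    · intro i
      exact ⟨Module.End.mem_eigenspace_iff.mpr (hX i i.2), hw i i.2⟩
  have : Nonempty (Fin n) := ⟨⟨0, Nat.pos_of_ne_zero (NeZero.ne n)⟩⟩
  let b : Basis (Fin n) K V := basisOfLinearIndependentOfCardEqFinrank hli (by simp [hfin])
  have hb : ∀ i : Fin n, b i = w i := fun i => by simp [b]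
  refine ⟨n, b, ?_, ?_, ?_⟩
  · exact diag_of_action b X (fun i => x i) (fun j => by rw [hb, hX j j.2])
  · exact tri_of_action b w hb Y al be ga hY hbe hbe' hga hga0
  · exact tri_of_action b w hb Z al' be' ga' hZ hbe2 hbe2' hga2 hga20

/-! ### Vectors from polynomials -/

variable {d : ℕ}

/-- the vector of a polynomial: the coefficients divided by binomial coefficients -/
noncomputable def vec (d : ℕ) (P : K[X]) : Fin (d + 1) → K :=
  fun i => P.coeff i / (d.choose i : K)

lemma vec_add (P Q : K[X]) : vec d (P + Q) = vec d P + vec d Q := by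
  funext i; simp [vec, add_div]

lemma vec_C_mul (c : K) (P : K[X]) : vec d (C c * P) = c • vec d P := by
  funext i; simp [vec, mul_div_assoc]

lemma vec_ne_zero [CharZero K] {P : K[X]} (h0 : P ≠ 0) (h : P.natDegree ≤ d) : vec d P ≠ 0 := by
  intro h'
  have := congrFun h' ⟨P.natDegree, by omega⟩
  simp only [vec, Pi.zero_apply, div_eq_zero_iff] at this
  rcases this with h1 | h1
  · rw [Polynomial.coeff_natDegree] at h1
    exact h0 (Polynomial.leadingCoeff_eq_zero.mp h1)
  · exact (Nat.cast_ne_zero.mpr (Nat.choose_pos h).ne') h1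

/-- the matrices `a + b A + c A* + e (A A* - A* A)` -/
def EE (d : ℕ) (a b c e : K) : Matrix (Fin (d + 1)) (Fin (d + 1)) K :=
  a • 1 + b • kA K d + c • kS K d + e • (kA K d * kS K d - kS K d * kA K d)

/-- the corresponding operator on polynomials -/
noncomputable def TT (d : ℕ) (a b c e : K) (P : K[X]) : K[X] :=
  (C b * (1 - X ^ 2) - C (2 * c) * X - C (2 * e) * (1 + X ^ 2)) * derivative P +
    C (d : K) * (C (b + 2 * e) * X + C c) * P + C a * P

lemma TT_coeff (a b c e : K) (P : K[X]) (n : ℕ) :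
    (TT d a b c e P).coeff n = (b - 2 * e) * ((n + 1) * P.coeff (n + 1)) -
      (b + 2 * e) * (((n : K) - 1) * (if 1 ≤ n then P.coeff (n - 1) else 0)) -
      2 * c * (n * P.coeff n) + d * (b + 2 * e) * (if 1 ≤ n then P.coeff (n - 1) else 0) +
      (d * c + a) * P.coeff n := by
  have e1 : TT d a b c e P = C (b - 2 * e) * derivative P - C (b + 2 * e) * (X ^ 2 * derivative P)
      - C (2 * c) * (X ^ 1 * derivative P) + C (d * (b + 2 * e)) * (X ^ 1 * P) +
      C (d * c + a) * P := by
    simp only [TT, C_add, C_sub, C_mul]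
    ring
  rw [e1]
  simp only [coeff_add, coeff_sub, coeff_C_mul, coeff_X_pow_mul', coeff_derivative]
  rcases n with _ | _ | n
  · simp
  · simp
    left; ring
  · simp
    ring

lemma EE_vec [CharZero K] (a b c e : K) (P : K[X]) (hP : P.coeff (d + 1) = 0) :
    (EE d a b c e).mulVec (vec d P) = vec d (TT d a b c e P) := by
  have hact : Acts (EE d a b c e) _ :=
    (((Acts.one (K := K)).smul a).add (acts_kA.smul b)).add (acts_kS.smul c) |>.add
      (((acts_kA.mul acts_kS).sub (acts_kS.mul acts_kA)).smul e)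
  obtain ⟨f, hf⟩ : ∃ f : ℤ → K, ∀ n : ℕ, f n = P.coeff n / (d.choose n : K) :=
    ⟨fun k => P.coeff k.toNat / (d.choose k.toNat : K), fun n => by simp⟩
  have hf' : vec d P = res K d f := by
    funext i
    simp only [vec, res, hf]
  rw [hf', hact f]
  funext i
  obtain ⟨n, hn⟩ := i
  have hn' : n ≤ d := by omega
  simp only [res, vec, TT_coeff, hA, hS, tri, Pi.add_apply, Pi.sub_apply, Pi.smul_apply,
    smul_eq_mul]
  have hc : (d.choose n : K) ≠ 0 := Nat.cast_ne_zero.mpr (Nat.choose_pos hn').ne'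
  have e1 : ((d : K) - n) * f ((n : ℤ) + 1) = (n + 1) * P.coeff (n + 1) / (d.choose n : K) := by
    rcases Nat.lt_or_ge n d with h | h
    · have h1 : f ((n : ℤ) + 1) = P.coeff (n + 1) / (d.choose (n + 1) : K) := by
        rw [← hf]; push_cast; rfl
      have h2 : (d.choose (n + 1) : K) ≠ 0 := Nat.cast_ne_zero.mpr (Nat.choose_pos h).ne'
      have h3 : (d.choose (n + 1) : K) * (n + 1) = d.choose n * ((d : K) - n) := by
        have := Nat.choose_succ_right_eq d n
        have h4 := congrArg (Nat.cast (R := K)) this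
        push_cast [Nat.cast_sub hn'] at h4
        exact h4
      rw [h1]
      field_simp
      linear_combination -P.coeff (n + 1) * h3
    · obtain rfl : n = d := by omega
      rw [hP]; ring
  have e2 : (n : K) * f ((n : ℤ) - 1) =
      ((d : K) - n + 1) * (if 1 ≤ n then P.coeff (n - 1) else 0) / (d.choose n : K) := by
    rcases n with _ | m
    · simp
    · have h1 : f (((m + 1 : ℕ) : ℤ) - 1) = P.coeff m / (d.choose m : K) := by
        rw [← hf]; push_cast; ring_nf
      have h2 : (d.choose m : K) ≠ 0 := Nat.cast_ne_zero.mpr (Nat.choose_pos (by omega)).ne'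
      have h3 : (d.choose (m + 1) : K) * (m + 1) = d.choose m * ((d : K) - m) := by
        have := Nat.choose_succ_right_eq d m
        have h4 := congrArg (Nat.cast (R := K)) this
        push_cast [Nat.cast_sub (show m ≤ d by omega)] at h4
        exact h4
      rw [h1, if_pos (by omega), show m + 1 - 1 = m by omega]
      push_cast
      field_simp
      linear_combination P.coeff m * h3
  have e0 := hf n
  obtain ⟨U, hU⟩ : ∃ U, U = (if 1 ≤ n then P.coeff (n - 1) else 0) := ⟨_, rfl⟩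
  rw [← hU] at e2 ⊢
  push_cast
  rw [eq_div_iff hc]
  have e0' : f n * (d.choose n : K) = P.coeff n := by rw [e0]; field_simp
  rw [eq_div_iff hc] at e1 e2
  linear_combination (b - 2 * e) * e1 + (b + 2 * e) * e2 + (a + c * (d - 2 * n)) * e0'

/-- the vectors `L₁^{d-j} L₂^j` -/
noncomputable def ww (d : ℕ) (p1 q1 p2 q2 : K) (j : ℕ) : Fin (d + 1) → K :=
  vec d ((C p1 + C q1 * X) ^ (d - j) * (C p2 + C q2 * X) ^ j)

lemma natDegree_form (p q : K) : (C p + C q * X).natDegree ≤ 1 := by
  rw [add_comm]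
  exact natDegree_linear_le

lemma form_ne_zero {p q : K} (h : p ≠ 0 ∨ q ≠ 0) : (C p + C q * X : K[X]) ≠ 0 := by
  intro h'
  have h0 := congrArg (fun P => Polynomial.coeff P 0) h'
  have h1 := congrArg (fun P => Polynomial.coeff P 1) h'
  simp at h0 h1
  rcases h with h | h
  · exact h h0
  · exact h h1

lemma natDegree_ww (p1 q1 p2 q2 : K) (m j : ℕ) :
    ((C p1 + C q1 * X) ^ m * (C p2 + C q2 * X) ^ j).natDegree ≤ m + j := by
  refine (natDegree_mul_le).trans (add_le_add ?_ ?_)
  · refine natDegree_pow_le.trans ?_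
    calc m * _ ≤ m * 1 := Nat.mul_le_mul_left _ (natDegree_form _ _)
      _ = m := mul_one m
  · refine natDegree_pow_le.trans ?_
    calc j * _ ≤ j * 1 := Nat.mul_le_mul_left _ (natDegree_form _ _)
      _ = j := mul_one j

lemma TT_forms (a b c e p1 q1 p2 q2 y11 y12 y21 y22 : K)
    (h11 : c * p1 + (b - 2 * e) * q1 = y11 * p1 + y21 * p2)
    (h21 : (b + 2 * e) * p1 - c * q1 = y11 * q1 + y21 * q2)
    (h12 : c * p2 + (b - 2 * e) * q2 = y12 * p1 + y22 * p2)
    (h22 : (b + 2 * e) * p2 - c * q2 = y12 * q1 + y22 * q2) (m j : ℕ) (hmj : m + j = d) :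
    TT d a b c e ((C p1 + C q1 * X) ^ m * (C p2 + C q2 * X) ^ j) =
      C (a + m * y11 + j * y22) * ((C p1 + C q1 * X) ^ m * (C p2 + C q2 * X) ^ j) +
      C (m * y21) * ((C p1 + C q1 * X) ^ (m - 1) * (C p2 + C q2 * X) ^ (j + 1)) +
      C (j * y12) * ((C p1 + C q1 * X) ^ (m + 1) * (C p2 + C q2 * X) ^ (j - 1)) := by
  have k1 : (C b * (1 - X ^ 2) - C (2 * c) * X - C (2 * e) * (1 + X ^ 2)) * C q1 +
      (C (b + 2 * e) * X + C c) * (C p1 + C q1 * X) =
      C y11 * (C p1 + C q1 * X) + C y21 * (C p2 + C q2 * X) := by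
    have g1 := congrArg (C : K → K[X]) h11
    have g2 := congrArg (C : K → K[X]) h21
    have g3 : (C (2 : K) : K[X]) = 2 := rfl
    simp only [C_add, C_sub, C_mul] at g1 g2 ⊢
    linear_combination g1 + X * g2 - (X * C c * C q1) * g3
  have k2 : (C b * (1 - X ^ 2) - C (2 * c) * X - C (2 * e) * (1 + X ^ 2)) * C q2 +
      (C (b + 2 * e) * X + C c) * (C p2 + C q2 * X) =
      C y12 * (C p1 + C q1 * X) + C y22 * (C p2 + C q2 * X) := by
    have g1 := congrArg (C : K → K[X]) h12
    have g2 := congrArg (C : K → K[X]) h22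
    have g3 : (C (2 : K) : K[X]) = 2 := rfl
    simp only [C_add, C_sub, C_mul] at g1 g2 ⊢
    linear_combination g1 + X * g2 - (X * C c * C q2) * g3
  have hd : (C (d : K) : K[X]) = C (m : K) + C (j : K) := by
    rw [← hmj]; push_cast; rw [C_add]
  simp only [TT, derivative_mul, derivative_pow, derivative_add, derivative_C, derivative_X,
    mul_one, zero_mul, zero_add, hd]
  obtain ⟨L1, hL1⟩ : ∃ L, L = C p1 + C q1 * X := ⟨_, rfl⟩
  obtain ⟨L2, hL2⟩ : ∃ L, L = C p2 + C q2 * X := ⟨_, rfl⟩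
  rw [← hL1, ← hL2] at k1 k2 ⊢
  simp only [C_add, C_mul] at k1 k2 ⊢
  rcases m with _ | m <;> rcases j with _ | j
  · simp
  · simp only [Nat.add_sub_cancel, Nat.cast_zero, C_0, pow_zero, zero_mul, mul_zero, zero_add,
      one_mul, add_zero]
    linear_combination (C ((j + 1 : ℕ) : K) * L2 ^ j) * k2
  · simp only [Nat.add_sub_cancel, Nat.cast_zero, C_0, pow_zero, zero_mul, mul_zero, zero_add,
      one_mul, add_zero, mul_one]
    linear_combination (C ((m + 1 : ℕ) : K) * L1 ^ m) * k1
  · simp only [Nat.add_sub_cancel]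
    linear_combination (C ((m + 1 : ℕ) : K) * L1 ^ m * L2 ^ (j + 1)) * k1 +
      (C ((j + 1 : ℕ) : K) * L1 ^ (m + 1) * L2 ^ j) * k2

lemma EE_ww [CharZero K] (a b c e p1 q1 p2 q2 y11 y12 y21 y22 : K)
    (h11 : c * p1 + (b - 2 * e) * q1 = y11 * p1 + y21 * p2)
    (h21 : (b + 2 * e) * p1 - c * q1 = y11 * q1 + y21 * q2)
    (h12 : c * p2 + (b - 2 * e) * q2 = y12 * p1 + y22 * p2)
    (h22 : (b + 2 * e) * p2 - c * q2 = y12 * q1 + y22 * q2) (j : ℕ) (hj : j < d + 1) :
    toLin' (EE d a b c e) (ww d p1 q1 p2 q2 j) =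
      (a + ((d : K) - j) * y11 + j * y22) • ww d p1 q1 p2 q2 j +
      (((d : K) - j) * y21) • ww d p1 q1 p2 q2 (j + 1) +
      (j * y12) • ww d p1 q1 p2 q2 (j - 1) := by
  have hj' : j ≤ d := by omega
  rw [toLin'_apply]
  simp only [ww]
  rw [EE_vec]
  · rw [TT_forms a b c e p1 q1 p2 q2 y11 y12 y21 y22 h11 h21 h12 h22 (d - j) j (by omega),
      vec_add, vec_add, vec_C_mul, vec_C_mul, vec_C_mul, Nat.cast_sub hj',
      show d - (j + 1) = d - j - 1 by omega]
    rcases j with _ | j
    · simp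
    · rw [show d - (j + 1 - 1) = d - (j + 1) + 1 by omega]
  · apply coeff_eq_zero_of_natDegree_lt
    have := natDegree_ww p1 q1 p2 q2 (d - j) j
    omega

lemma ww_ne_zero [CharZero K] {p1 q1 p2 q2 : K} (h1 : p1 ≠ 0 ∨ q1 ≠ 0) (h2 : p2 ≠ 0 ∨ q2 ≠ 0)
    (j : ℕ) (hj : j < d + 1) : ww d p1 q1 p2 q2 j ≠ 0 := by
  apply vec_ne_zero
  · exact mul_ne_zero (pow_ne_zero _ (form_ne_zero h1)) (pow_ne_zero _ (form_ne_zero h2))
  · have := natDegree_ww p1 q1 p2 q2 (d - j) j
    omega

/-- The three conditions from the action on two linear forms. -/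
lemma diagTriTri_of_forms [CharZero K] (p1 q1 p2 q2 : K) (h1 : p1 ≠ 0 ∨ q1 ≠ 0)
    (h2 : p2 ≠ 0 ∨ q2 ≠ 0)
    (a b c e x1 x2 : K)
    (g11 : c * p1 + (b - 2 * e) * q1 = x1 * p1)
    (g21 : (b + 2 * e) * p1 - c * q1 = x1 * q1)
    (g12 : c * p2 + (b - 2 * e) * q2 = x2 * p2)
    (g22 : (b + 2 * e) * p2 - c * q2 = x2 * q2) (hx : x1 ≠ x2)
    (a' b' c' e' y11 y12 y21 y22 : K)
    (h11 : c' * p1 + (b' - 2 * e') * q1 = y11 * p1 + y21 * p2)
    (h21 : (b' + 2 * e') * p1 - c' * q1 = y11 * q1 + y21 * q2)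
    (h12 : c' * p2 + (b' - 2 * e') * q2 = y12 * p1 + y22 * p2)
    (h22 : (b' + 2 * e') * p2 - c' * q2 = y12 * q1 + y22 * q2)
    (hy12 : y12 ≠ 0) (hy21 : y21 ≠ 0)
    (a'' b'' c'' e'' z11 z12 z21 z22 : K)
    (k11 : c'' * p1 + (b'' - 2 * e'') * q1 = z11 * p1 + z21 * p2)
    (k21 : (b'' + 2 * e'') * p1 - c'' * q1 = z11 * q1 + z21 * q2)
    (k12 : c'' * p2 + (b'' - 2 * e'') * q2 = z12 * p1 + z22 * p2)
    (k22 : (b'' + 2 * e'') * p2 - c'' * q2 = z12 * q1 + z22 * q2)
    (hz12 : z12 ≠ 0) (hz21 : z21 ≠ 0) :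
    DiagTriTri (toLin' (EE d a b c e)) (toLin' (EE d a' b' c' e'))
      (toLin' (EE d a'' b'' c'' e'')) := by
  have hcast : ∀ j : ℕ, j + 1 < d + 1 → (d : K) - j ≠ 0 := by
    intro j hj h
    have : (d : K) = j := by linear_combination h
    have := Nat.cast_injective (R := K) this
    omega
  have hcast' : ∀ j : ℕ, j + 1 = d + 1 → (d : K) - j = 0 := by
    intro j hj
    have : j = d := by omega
    rw [this, sub_self]
  refine diagTriTri_of_action (n := d + 1) (by simp) (ww d p1 q1 p2 q2) _ _ _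
    (fun j => a + ((d : K) - j) * x1 + j * x2) (fun j hj => ww_ne_zero h1 h2 j hj) ?_ ?_
    _ _ _ (fun j hj => EE_ww a' b' c' e' p1 q1 p2 q2 y11 y12 y21 y22 h11 h21 h12 h22 j hj)
    ?_ ?_ ?_ ?_
    _ _ _ (fun j hj => EE_ww a'' b'' c'' e'' p1 q1 p2 q2 z11 z12 z21 z22 k11 k21 k12 k22 j hj)
    ?_ ?_ ?_ ?_
  · intro j hj
    rw [EE_ww a b c e p1 q1 p2 q2 x1 0 0 x2 (by rw [g11]; ring) (by rw [g21]; ring)
      (by rw [g12]; ring) (by rw [g22]; ring) j hj]
    simp
  · intro i _ j _ h
    have : ((i : K) - j) * (x1 - x2) = 0 := by linear_combination -h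
    have := (mul_eq_zero.mp this).resolve_right (sub_ne_zero.mpr hx)
    exact Nat.cast_injective (R := K) (sub_eq_zero.mp this)
  · intro j hj
    exact mul_ne_zero (hcast j hj) hy21
  · intro j hj
    rw [hcast' j hj, zero_mul]
  · intro j hj _
    exact mul_ne_zero (Nat.cast_ne_zero.mpr (by omega)) hy12
  · simp
  · intro j hj
    exact mul_ne_zero (hcast j hj) hz21
  · intro j hj
    rw [hcast' j hj, zero_mul]
  · intro j hj _
    exact mul_ne_zero (Nat.cast_ne_zero.mpr (by omega)) hz12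
  · simp

lemma EE_A : EE d (0 : K) 1 0 0 = kA K d := by simp [EE]
lemma EE_S : EE d (0 : K) 0 1 0 = kS K d := by simp [EE]

/-- the first family consists of Leonard triples -/
theorem sufficiency_one [CharZero K] [IsAlgClosed K] (a b c e : K) (h1 : b ^ 2 ≠ 4 * e ^ 2)
    (h2 : c ^ 2 ≠ 4 * e ^ 2) (h3 : b ^ 2 + c ^ 2 ≠ 4 * e ^ 2) :
    IsLeonardTriple (toLin' (kA K d)) (toLin' (kS K d)) (toLin' (EE d a b c e)) := by
  have hb1 : b - 2 * e ≠ 0 := fun h => h1 (by linear_combination (b + 2 * e) * h)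
  have hb2 : b + 2 * e ≠ 0 := fun h => h1 (by linear_combination (b - 2 * e) * h)
  have hc1 : c - 2 * e ≠ 0 := fun h => h2 (by linear_combination (c + 2 * e) * h)
  have hc2 : c + 2 * e ≠ 0 := fun h => h2 (by linear_combination (c - 2 * e) * h)
  obtain ⟨mu, hmu⟩ : ∃ mu : K, mu ^ 2 = b ^ 2 + c ^ 2 - 4 * e ^ 2 :=
    IsAlgClosed.exists_pow_nat_eq _ (by norm_num)
  have hmu0 : mu ≠ 0 := by
    rintro rfl
    exact h3 (by linear_combination -hmu)
  have two : (2 : K) ≠ 0 := two_ne_zero
  have hm1 : mu - c ≠ 0 := fun h => h1 (by linear_combination (mu + c) * h - hmu)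
  have hm2 : mu + c ≠ 0 := fun h => h1 (by linear_combination (mu - c) * h - hmu)
  rw [← EE_A, ← EE_S]
  refine ⟨?_, ?_, ?_⟩
  · -- `A` diagonal
    refine diagTriTri_of_forms 1 1 1 (-1) (Or.inl one_ne_zero) (Or.inl one_ne_zero)
      0 1 0 0 1 (-1) (by ring) (by ring) (by ring) (by ring) ?_
      0 0 1 0 0 1 1 0 (by ring) (by ring) (by ring) (by ring) one_ne_zero one_ne_zero
      a b c e b (c + 2 * e) (c - 2 * e) (-b) (by ring) (by ring) (by ring) (by ring) hc2 hc1
    intro h
    exact two (by linear_combination h)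
  · -- `A*` diagonal
    refine diagTriTri_of_forms 1 0 0 1 (Or.inl one_ne_zero) (Or.inr one_ne_zero)
      0 0 1 0 1 (-1) (by ring) (by ring) (by ring) (by ring) ?_
      0 1 0 0 0 1 1 0 (by ring) (by ring) (by ring) (by ring) one_ne_zero one_ne_zero
      a b c e c (b - 2 * e) (b + 2 * e) (-c) (by ring) (by ring) (by ring) (by ring) hb1 hb2
    intro h
    exact two (by linear_combination h)
  · -- `E` diagonal
    have hden : 2 * mu * (b - 2 * e) ≠ 0 := mul_ne_zero (mul_ne_zero two hmu0) hb1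
    refine diagTriTri_of_forms (b - 2 * e) (mu - c) (b - 2 * e) (-(mu + c)) (Or.inl hb1)
      (Or.inl hb1)
      a b c e mu (-mu) (by ring) (by linear_combination -hmu) (by ring)
      (by linear_combination -hmu) ?_
      0 1 0 0 (((mu - c) * (mu + c) + (b - 2 * e) ^ 2) / (2 * mu * (b - 2 * e)))
        (((b - 2 * e) ^ 2 - (mu + c) ^ 2) / (2 * mu * (b - 2 * e)))
        (((mu - c) ^ 2 - (b - 2 * e) ^ 2) / (2 * mu * (b - 2 * e)))
        (-((mu - c) * (mu + c) + (b - 2 * e) ^ 2) / (2 * mu * (b - 2 * e)))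
        (by field_simp; ring) (by field_simp; ring) (by field_simp; ring) (by field_simp; ring)
        ?_ ?_
      0 0 1 0 (c / mu) ((mu + c) / mu) ((mu - c) / mu) (-(c / mu))
        (by field_simp; ring) (by field_simp; ring) (by field_simp; ring) (by field_simp; ring)
        (div_ne_zero hm2 hmu0) (div_ne_zero hm1 hmu0)
    · intro h
      exact mul_ne_zero two hmu0 (by linear_combination h)
    · refine div_ne_zero ?_ hden
      intro h
      have h4 : (b - 2 * e - (mu + c)) * (b - 2 * e + (mu + c)) = 0 := by linear_combination h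
      rcases mul_eq_zero.mp h4 with h5 | h5
      · have h6 : mu = b - 2 * e - c := by linear_combination -h5
        rw [h6] at hmu
        exact mul_ne_zero (mul_ne_zero two hb1) hc2 (by linear_combination -hmu)
      · have h6 : mu = -(b - 2 * e) - c := by linear_combination h5
        rw [h6] at hmu
        exact mul_ne_zero (mul_ne_zero two hb1) hc1 (by linear_combination hmu)
    · refine div_ne_zero ?_ hden
      intro h
      have h4 : (mu - c - (b - 2 * e)) * (mu - c + (b - 2 * e)) = 0 := by linear_combination h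
      rcases mul_eq_zero.mp h4 with h5 | h5
      · have h6 : mu = b - 2 * e + c := by linear_combination h5
        rw [h6] at hmu
        exact mul_ne_zero (mul_ne_zero two hb1) hc1 (by linear_combination hmu)
      · have h6 : mu = c - (b - 2 * e) := by linear_combination h5
        rw [h6] at hmu
        exact mul_ne_zero (mul_ne_zero two hb1) hc2 (by linear_combination -hmu)

end Pool.Agent.T9h69.Leonard
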