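import Pool.Agent.T9h69.Leonard6

namespace Pool.Agent.T9h69.Leonard

open Matrix Module

variable {K : Type*} [Field K]

lemma kA_two_vec (x y z : K) : (kA K 2).mulVec ![x, y, z] = ![2 * y, x + z, 2 * y] := by
  ext i
  fin_cases i <;> simp [kA, Matrix.mulVec, dotProduct, Fin.sum_univ_three] <;> ring

lemma kS_two_vec (x y z : K) : (kS K 2).mulVec ![x, y, z] = ![2 * x, 0, -2 * z] := by
  ext i
  fin_cases i <;> simp [kS, Matrix.mulVec, dotProduct, Fin.sum_univ_three, Matrix.diagonal]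
  ring

/-- the second family -/
def FF (a b c : K) : Matrix (Fin 3) (Fin 3) K :=
  a • 1 + b • (kA K 2 * kS K 2) + c • (kS K 2 * kA K 2)

lemma FF_vec (a b c x y z : K) : (FF a b c).mulVec ![x, y, z] =
    ![a * x + 4 * c * y, a * y + 2 * b * (x - z), a * z - 4 * c * y] := by
  rw [FF, Matrix.add_mulVec, Matrix.add_mulVec, Matrix.smul_mulVec, Matrix.smul_mulVec,
    Matrix.smul_mulVec, ← Matrix.mulVec_mulVec, ← Matrix.mulVec_mulVec, Matrix.one_mulVec,
    kA_two_vec, kS_two_vec, kA_two_vec, kS_two_vec]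
  ext i
  fin_cases i <;> simp <;> ring

/-- a family of three vectors as a function on `ℕ` -/
def three (u v w : Fin 3 → K) (j : ℕ) : Fin 3 → K :=
  if j = 0 then u else if j = 1 then v else if j = 2 then w else 0

/-- three scalars as a function on `ℕ` -/
def sc (u v w : K) (j : ℕ) : K :=
  if j = 0 then u else if j = 1 then v else if j = 2 then w else 0

lemma three_builder (u v w : Fin 3 → K) (hu : u ≠ 0) (hv : v ≠ 0) (hw : w ≠ 0)
    (X Y Z : (Fin 3 → K) →ₗ[K] (Fin 3 → K)) (x0 x1 x2 : K) (h01 : x0 ≠ x1) (h02 : x0 ≠ x2)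
    (h12 : x1 ≠ x2) (Xu : X u = x0 • u) (Xv : X v = x1 • v) (Xw : X w = x2 • w)
    (a0 a1 a2 b0 b1 c1 c2 : K) (hb0 : b0 ≠ 0) (hb1 : b1 ≠ 0) (hc1 : c1 ≠ 0) (hc2 : c2 ≠ 0)
    (Yu : Y u = a0 • u + b0 • v) (Yv : Y v = a1 • v + b1 • w + c1 • u)
    (Yw : Y w = a2 • w + c2 • v)
    (a0' a1' a2' b0' b1' c1' c2' : K) (hb0' : b0' ≠ 0) (hb1' : b1' ≠ 0) (hc1' : c1' ≠ 0)
    (hc2' : c2' ≠ 0)
    (Zu : Z u = a0' • u + b0' • v) (Zv : Z v = a1' • v + b1' • w + c1' • u)
    (Zw : Z w = a2' • w + c2' • v) : DiagTriTri X Y Z := by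
  have cases3 : ∀ j : ℕ, j < 3 → j = 0 ∨ j = 1 ∨ j = 2 := fun j hj => by omega
  refine diagTriTri_of_action (n := 3) (by simp) (three u v w) X Y Z (sc x0 x1 x2) ?_ ?_ ?_
    (sc a0 a1 a2) (sc b0 b1 0) (sc 0 c1 c2) ?_ ?_ ?_ ?_ ?_
    (sc a0' a1' a2') (sc b0' b1' 0) (sc 0 c1' c2') ?_ ?_ ?_ ?_ ?_
  · intro j hj
    rcases cases3 j hj with rfl | rfl | rfl <;> simpa [three]
  · intro j hj
    rcases cases3 j hj with rfl | rfl | rfl <;> simpa [three, sc]
  · intro i hi j hj h
    rcases cases3 i hi with rfl | rfl | rfl <;> rcases cases3 j hj with rfl | rfl | rfl <;>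
      simp only [sc] at h <;> norm_num at h ⊢
    · exact h01 h
    · exact h02 h
    · exact h01 h.symm
    · exact h12 h
    · exact h02 h.symm
    · exact h12 h.symm
  · intro j hj
    rcases cases3 j hj with rfl | rfl | rfl
    · simp [three, sc, Yu]
    · simp [three, sc, Yv]
    · simp [three, sc, Yw]
  · intro j hj
    rcases cases3 j (by omega) with rfl | rfl | rfl
    · simpa [sc]
    · simpa [sc]
    · omega
  · intro j hj
    obtain rfl : j = 2 := by omega
    simp [sc]
  · intro j hj hj'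
    rcases cases3 j hj' with rfl | rfl | rfl
    · omega
    · simpa [sc]
    · simpa [sc]
  · simp [sc]
  · intro j hj
    rcases cases3 j hj with rfl | rfl | rfl
    · simp [three, sc, Zu]
    · simp [three, sc, Zv]
    · simp [three, sc, Zw]
  · intro j hj
    rcases cases3 j (by omega) with rfl | rfl | rfl
    · simpa [sc]
    · simpa [sc]
    · omega
  · intro j hj
    obtain rfl : j = 2 := by omega
    simp [sc]
  · intro j hj hj'
    rcases cases3 j hj' with rfl | rfl | rfl
    · omega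
    · simpa [sc]
    · simpa [sc]
  · simp [sc]

/-- the second family consists of Leonard triples -/
theorem sufficiency_two [CharZero K] [IsAlgClosed K] (a b c : K) (hb : b ≠ 0) (hc : c ≠ 0) :
    IsLeonardTriple (toLin' (kA K 2)) (toLin' (kS K 2)) (toLin' (FF a b c)) := by
  have two : (2 : K) ≠ 0 := two_ne_zero
  have four : (4 : K) ≠ 0 := by norm_num
  obtain ⟨r, hr⟩ : ∃ r : K, r ^ 2 = b / c := IsAlgClosed.exists_pow_nat_eq _ (by norm_num)
  have hr' : c * r ^ 2 = b := by rw [hr]; field_simp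
  have hr0 : r ≠ 0 := by
    rintro rfl
    exact hb (by rw [← hr']; ring)
  refine ⟨?_, ?_, ?_⟩
  · refine three_builder ![1, 1, 1] ![1, 0, -1] ![1, -1, 1] ?_ ?_ ?_ _ _ _ 2 0 (-2) ?_ ?_ ?_
      ?_ ?_ ?_ 0 0 0 2 1 1 2 two one_ne_zero one_ne_zero two ?_ ?_ ?_
      a a a (4 * c) (-(2 * b)) (2 * b) (-(4 * c)) ?_ ?_ ?_ ?_ ?_ ?_ ?_
    · intro h; simpa using congrFun h 0
    · intro h; simpa using congrFun h 0
    · intro h; simpa using congrFun h 0
    · exact two
    · intro h; exact four (by linear_combination h)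
    · intro h; exact two (by linear_combination h)
    · rw [toLin'_apply, kA_two_vec]; ext i; fin_cases i <;> simp <;> norm_num
    · rw [toLin'_apply, kA_two_vec]; ext i; fin_cases i <;> simp
    · rw [toLin'_apply, kA_two_vec]; ext i; fin_cases i <;> simp <;> norm_num
    · rw [toLin'_apply, kS_two_vec]; ext i; fin_cases i <;> simp <;> norm_num
    · rw [toLin'_apply, kS_two_vec]; ext i; fin_cases i <;> simp <;> norm_num
    · rw [toLin'_apply, kS_two_vec]; ext i; fin_cases i <;> simp <;> norm_num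
    · exact mul_ne_zero four hc
    · exact neg_ne_zero.mpr (mul_ne_zero two hb)
    · exact mul_ne_zero two hb
    · exact neg_ne_zero.mpr (mul_ne_zero four hc)
    · rw [toLin'_apply, FF_vec]; ext i; fin_cases i <;> simp <;> ring
    · rw [toLin'_apply, FF_vec]; ext i; fin_cases i <;> simp <;> ring
    · rw [toLin'_apply, FF_vec]; ext i; fin_cases i <;> simp <;> ring
  · refine three_builder ![1, 0, 0] ![0, 1, 0] ![0, 0, 1] ?_ ?_ ?_ _ _ _ 2 0 (-2) ?_ ?_ ?_
      ?_ ?_ ?_ 0 0 0 1 2 2 1 one_ne_zero two two one_ne_zero ?_ ?_ ?_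
      a a a (2 * b) (-(4 * c)) (4 * c) (-(2 * b)) ?_ ?_ ?_ ?_ ?_ ?_ ?_
    · intro h; simpa using congrFun h 0
    · intro h; simpa using congrFun h 1
    · intro h; simpa using congrFun h 2
    · exact two
    · intro h; exact four (by linear_combination h)
    · intro h; exact two (by linear_combination h)
    · rw [toLin'_apply, kS_two_vec]; ext i; fin_cases i <;> simp
    · rw [toLin'_apply, kS_two_vec]; ext i; fin_cases i <;> simp
    · rw [toLin'_apply, kS_two_vec]; ext i; fin_cases i <;> simp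
    · rw [toLin'_apply, kA_two_vec]; ext i; fin_cases i <;> simp
    · rw [toLin'_apply, kA_two_vec]; ext i; fin_cases i <;> simp
    · rw [toLin'_apply, kA_two_vec]; ext i; fin_cases i <;> simp
    · exact mul_ne_zero two hb
    · exact neg_ne_zero.mpr (mul_ne_zero four hc)
    · exact mul_ne_zero four hc
    · exact neg_ne_zero.mpr (mul_ne_zero two hb)
    · rw [toLin'_apply, FF_vec]; ext i; fin_cases i <;> simp
    · rw [toLin'_apply, FF_vec]; ext i; fin_cases i <;> simp
    · rw [toLin'_apply, FF_vec]; ext i; fin_cases i <;> simp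
  · refine three_builder ![1, r, -1] ![r, 0, r] ![-1 / 2, r / 2, 1 / 2] ?_ ?_ ?_ _ _ _
      (a + 4 * c * r) a (a - 4 * c * r) ?_ ?_ ?_
      ?_ ?_ ?_ 0 0 0 2 2 1 1 two two one_ne_zero one_ne_zero ?_ ?_ ?_
      0 0 0 (2 / r) (-(2 * r)) r (-(1 / r)) ?_ ?_ ?_ ?_ ?_ ?_ ?_
    · intro h; simpa using congrFun h 0
    · intro h; exact hr0 (by simpa using congrFun h 0)
    · intro h; simpa using congrFun h 2
    · intro h; exact mul_ne_zero (mul_ne_zero four hc) hr0 (by linear_combination h)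
    · intro h
      exact mul_ne_zero two (mul_ne_zero (mul_ne_zero four hc) hr0) (by linear_combination h)
    · intro h; exact mul_ne_zero (mul_ne_zero four hc) hr0 (by linear_combination h)
    · rw [toLin'_apply, FF_vec, ← hr']; ext i; fin_cases i <;> simp <;> ring
    · rw [toLin'_apply, FF_vec, ← hr']; ext i; fin_cases i <;> simp
    · rw [toLin'_apply, FF_vec, ← hr']; ext i; fin_cases i <;> simp <;> ring
    · rw [toLin'_apply, kA_two_vec]; ext i; fin_cases i <;> simp
    · rw [toLin'_apply, kA_two_vec]; ext i; fin_cases i <;> simp <;> ring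
    · rw [toLin'_apply, kA_two_vec]; ext i; fin_cases i <;> simp <;> ring
    · exact div_ne_zero two hr0
    · exact neg_ne_zero.mpr (mul_ne_zero two hr0)
    · exact hr0
    · exact neg_ne_zero.mpr (div_ne_zero one_ne_zero hr0)
    · rw [toLin'_apply, kS_two_vec]; ext i; fin_cases i <;> simp <;> field_simp
    · rw [toLin'_apply, kS_two_vec]; ext i; fin_cases i <;> simp <;> ring
    · rw [toLin'_apply, kS_two_vec]; ext i; fin_cases i <;> simp <;> field_simp

/-- for `d = 0` every matrix occurs -/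
lemma diagTriTri_zero (X Y Z : Matrix (Fin 1) (Fin 1) K) :
    DiagTriTri (toLin' X) (toLin' Y) (toLin' Z) := by
  refine ⟨1, Pi.basisFun K (Fin 1), ?_, ?_, ?_⟩
  · intro i j h
    exact absurd (Subsingleton.elim i j) h
  · constructor
    · intro i j h; omega
    · intro i j h; omega
  · constructor
    · intro i j h; omega
    · intro i j h; omega

variable {d : ℕ}

/-- The classification. -/
theorem classification [CharZero K] [IsAlgClosed K] (E : Matrix (Fin (d + 1)) (Fin (d + 1)) K) :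
    IsLeonardTriple (toLin' (kA K d)) (toLin' (kS K d)) (toLin' E) ↔
    d = 0 ∨ (∃ a b c e : K,
      E = a • 1 + b • kA K d + c • kS K d + e • (kA K d * kS K d - kS K d * kA K d) ∧
      b ^ 2 ≠ 4 * e ^ 2 ∧ c ^ 2 ≠ 4 * e ^ 2 ∧ b ^ 2 + c ^ 2 ≠ 4 * e ^ 2) ∨
    (d = 2 ∧ ∃ a b c : K, E = a • 1 + b • (kA K d * kS K d) + c • (kS K d * kA K d) ∧
      b ≠ 0 ∧ c ≠ 0) := by
  constructor
  · exact necessity E
  · rintro (rfl | ⟨a, b, c, e, hE, h1, h2, h3⟩ | ⟨rfl, a, b, c, hE, hb, hc⟩)
    · exact ⟨diagTriTri_zero _ _ _, diagTriTri_zero _ _ _, diagTriTri_zero _ _ _⟩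
    · rw [hE]
      exact sufficiency_one a b c e h1 h2 h3
    · rw [hE]
      exact sufficiency_two a b c hb hc

end Pool.Agent.T9h69.Leonard
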