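import Pool.Agent.T9h69.Leonard7

namespace Pool.Agent.T9h69.Leonard

open Matrix Module

variable {K : Type*} [Field K] {d : ℕ}

lemma comm_01 (hd : 1 ≤ d) :
    (kA K d * kS K d - kS K d * kA K d) ⟨0, by omega⟩ ⟨1, by omega⟩ = -(2 * d) := by
  rw [Matrix.sub_apply, mul_diag' kS_isDiag, diag_mul' kS_isDiag]
  simp [kA, kS]
  ring

lemma comm_10 (hd : 1 ≤ d) :
    (kA K d * kS K d - kS K d * kA K d) ⟨1, by omega⟩ ⟨0, by omega⟩ = 2 := by
  rw [Matrix.sub_apply, mul_diag' kS_isDiag, diag_mul' kS_isDiag]
  simp [kA, kS]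

/-- the commutator is not a combination of `1`, `A`, `A*` -/
lemma comm_not_comb [CharZero K] (hd : 1 ≤ d) (x y z : K)
    (h : kA K d * kS K d - kS K d * kA K d = x • 1 + y • kA K d + z • kS K d) : False := by
  have h01 := congrFun (congrFun h ⟨0, by omega⟩) ⟨1, by omega⟩
  have h10 := congrFun (congrFun h ⟨1, by omega⟩) ⟨0, by omega⟩
  rw [comm_01 hd] at h01
  rw [comm_10 hd] at h10
  simp [kA, kS] at h01 h10
  have hd0 : (d : K) ≠ 0 := Nat.cast_ne_zero.mpr (by omega)
  have h1 : (4 * d : K) = 0 := by linear_combination d * h10 - h01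
  exact mul_ne_zero (by norm_num) hd0 h1

/-- the span of `1, A, A*, E` -/
lemma mem_span4 {n : ℕ} (X P Q R S : Matrix (Fin n) (Fin n) K) :
    X ∈ Submodule.span K {P, Q, R, S} ↔ ∃ x y z w : K, X = x • P + y • Q + z • R + w • S := by
  simp only [Submodule.mem_span_insert, Submodule.mem_span_singleton]
  constructor
  · rintro ⟨x, _, ⟨y, _, ⟨z, _, ⟨w, rfl⟩, rfl⟩, rfl⟩, rfl⟩
    exact ⟨x, y, z, w, by abel⟩
  · rintro ⟨x, y, z, w, rfl⟩
    exact ⟨x, _, ⟨y, _, ⟨z, _, ⟨w, rfl⟩, rfl⟩, rfl⟩, by abel⟩

/-- For which triples the three commutators lie in the span. -/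
theorem commutators [CharZero K] [IsAlgClosed K] (hd : 1 ≤ d)
    (E : Matrix (Fin (d + 1)) (Fin (d + 1)) K)
    (hE : IsLeonardTriple (toLin' (kA K d)) (toLin' (kS K d)) (toLin' E)) :
    (kA K d * kS K d - kS K d * kA K d ∈ Submodule.span K {1, kA K d, kS K d, E} ∧
      kS K d * E - E * kS K d ∈ Submodule.span K {1, kA K d, kS K d, E} ∧
      E * kA K d - kA K d * E ∈ Submodule.span K {1, kA K d, kS K d, E}) ↔
    ∃ a b c e : K, e ≠ 0 ∧
      E = a • 1 + b • kA K d + c • kS K d + e • (kA K d * kS K d - kS K d * kA K d) := by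
  constructor
  · rintro ⟨h, -, -⟩
    obtain ⟨x, y, z, w, h⟩ := (mem_span4 _ _ _ _ _).mp h
    rcases (classification E).mp hE with h0 | ⟨a, b, c, e, hE1, -⟩ | ⟨rfl, a, b, c, hE2, hb, hc⟩
    · omega
    · refine ⟨a, b, c, e, ?_, hE1⟩
      rintro rfl
      refine comm_not_comb hd (x + w * a) (y + w * b) (z + w * c) ?_
      rw [h, hE1]
      module
    · have e01 := congrFun (congrFun h 0) 1
      have e21 := congrFun (congrFun h 2) 1
      have e10 := congrFun (congrFun h 1) 0
      rw [hE2] at e01 e21 e10
      simp [kA, kS, Matrix.mul_apply, Fin.sum_univ_three, Matrix.diagonal] at e01 e21 e10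
      have f1 : w * c = -1 := by
        have : (8 : K) * (w * c + 1) = 0 := by linear_combination e21 - e01
        have := (mul_eq_zero.mp this).resolve_left (by norm_num)
        linear_combination this
      have f2 : w * b = 1 := by
        have : (8 : K) * (w * b - 1) = 0 := by linear_combination e21 + e01 - 4 * e10
        have := (mul_eq_zero.mp this).resolve_left (by norm_num)
        linear_combination this
      have hw : w ≠ 0 := by
        rintro rfl
        simp at f2
      have f3 : c = -b := by
        have : w * (b + c) = 0 := by linear_combination f1 + f2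
        have := (mul_eq_zero.mp this).resolve_left hw
        linear_combination this
      refine ⟨a, 0, 0, b, hb, ?_⟩
      rw [hE2, f3]
      module
  · rintro ⟨a, b, c, e, he, hE1⟩
    have hC : kA K d * kS K d - kS K d * kA K d =
        (-(a / e)) • 1 + (-(b / e)) • kA K d + (-(c / e)) • kS K d + (1 / e) • E := by
      rw [hE1]
      match_scalars <;> field_simp <;> ring
    have hAC := comm_AC (rel1 (K := K) (d := d))
    have hSC := comm_SC (rel2 (K := K) (d := d))
    have h1 : kS K d * E - E * kS K d = (-b) • (kA K d * kS K d - kS K d * kA K d) +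
        (-(4 * e)) • kA K d := by
      have : kS K d * E - E * kS K d = (-b) • (kA K d * kS K d - kS K d * kA K d) +
        e • (kS K d * (kA K d * kS K d - kS K d * kA K d) -
          (kA K d * kS K d - kS K d * kA K d) * kS K d) := by
        rw [hE1]
        simp only [add_mul, mul_add, Matrix.smul_mul, Matrix.mul_smul, Matrix.one_mul,
          Matrix.mul_one]
        module
      rw [this, hSC]
      module
    have h2 : E * kA K d - kA K d * E = (-c) • (kA K d * kS K d - kS K d * kA K d) +
        (-(4 * e)) • kS K d := by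
      have : E * kA K d - kA K d * E = (-c) • (kA K d * kS K d - kS K d * kA K d) -
        e • (kA K d * (kA K d * kS K d - kS K d * kA K d) -
          (kA K d * kS K d - kS K d * kA K d) * kA K d) := by
        rw [hE1]
        simp only [add_mul, mul_add, Matrix.smul_mul, Matrix.mul_smul, Matrix.one_mul,
          Matrix.mul_one]
        module
      rw [this, hAC]
      module
    have m1 : (1 : Matrix (Fin (d + 1)) (Fin (d + 1)) K) ∈
        Submodule.span K {1, kA K d, kS K d, E} := Submodule.subset_span (by simp)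
    have mA : kA K d ∈ Submodule.span K {1, kA K d, kS K d, E} :=
      Submodule.subset_span (by simp)
    have mS : kS K d ∈ Submodule.span K {1, kA K d, kS K d, E} :=
      Submodule.subset_span (by simp)
    have mC : kA K d * kS K d - kS K d * kA K d ∈ Submodule.span K {1, kA K d, kS K d, E} :=
      (mem_span4 _ _ _ _ _).mpr ⟨_, _, _, _, hC⟩
    refine ⟨mC, ?_, ?_⟩
    · rw [h1]
      exact Submodule.add_mem _ (Submodule.smul_mem _ _ mC) (Submodule.smul_mem _ _ mA)
    · rw [h2]
      exact Submodule.add_mem _ (Submodule.smul_mem _ _ mC) (Submodule.smul_mem _ _ mS)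

/-- `A + A*` extends the pair to a Leonard triple. -/
theorem sum_triple [CharZero K] [IsAlgClosed K] :
    IsLeonardTriple (toLin' (kA K d)) (toLin' (kS K d)) (toLin' (kA K d + kS K d)) := by
  have := sufficiency_one (K := K) (d := d) 0 1 1 0 (by norm_num) (by norm_num) (by norm_num)
  rwa [show EE d (0 : K) 1 1 0 = kA K d + kS K d by simp [EE]] at this

/-- The commutator of `A` and `A*` does not lie in the span for the triple with `A + A*`. -/
theorem sum_not_mem [CharZero K] (hd : 1 ≤ d) :
    kA K d * kS K d - kS K d * kA K d ∉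
      Submodule.span K {1, kA K d, kS K d, kA K d + kS K d} := by
  intro h
  obtain ⟨x, y, z, w, h⟩ := (mem_span4 _ _ _ _ _).mp h
  refine comm_not_comb hd x (y + w) (z + w) ?_
  rw [h]
  module

end Pool.Agent.T9h69.Leonard
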