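import Mathlib

/-!
# Leonard triples and the Krawtchouk Leonard pair of `sl₂`: definitions
-/

namespace Pool.Agent.T9h69.Leonard

open Matrix Module

variable {K : Type*} [Field K]

/-- A square matrix is irreducible tridiagonal if the entries outside the three central
diagonals are zero and the entries next to the main diagonal are not zero. -/
def IrredTridiag {n : ℕ} (M : Matrix (Fin n) (Fin n) K) : Prop :=
  (∀ i j : Fin n, (i : ℕ) + 1 < j ∨ (j : ℕ) + 1 < i → M i j = 0) ∧
  (∀ i j : Fin n, (i : ℕ) + 1 = j ∨ (j : ℕ) + 1 = i → M i j ≠ 0)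

/-- There is a basis of `V` in which `X` is represented by a diagonal matrix and `Y`, `Z`
are represented by irreducible tridiagonal matrices. -/
def DiagTriTri {V : Type*} [AddCommGroup V] [Module K V] (X Y Z : V →ₗ[K] V) : Prop :=
  ∃ (n : ℕ) (b : Basis (Fin n) K V), (LinearMap.toMatrix b b X).IsDiag ∧
    IrredTridiag (LinearMap.toMatrix b b Y) ∧ IrredTridiag (LinearMap.toMatrix b b Z)

/-- A Leonard triple on `V`. -/
def IsLeonardTriple {V : Type*} [AddCommGroup V] [Module K V] (X Y Z : V →ₗ[K] V) : Prop :=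
  DiagTriTri X Y Z ∧ DiagTriTri Y X Z ∧ DiagTriTri Z X Y

/-- The matrix `A` of the problem: `A_{i,i+1} = d - i`, `A_{i+1,i} = i + 1`, the other
entries are zero. -/
def kA (K : Type*) [Field K] (d : ℕ) : Matrix (Fin (d + 1)) (Fin (d + 1)) K :=
  Matrix.of fun i j =>
    if (i : ℕ) + 1 = j then ((d : K) - (i : ℕ)) else if (j : ℕ) + 1 = i then ((i : ℕ) : K) else 0

/-- The matrix `A* = diag (d, d-2, ..., -d)` of the problem. -/
def kS (K : Type*) [Field K] (d : ℕ) : Matrix (Fin (d + 1)) (Fin (d + 1)) K :=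
  Matrix.diagonal fun i => (d : K) - 2 * (i : ℕ)

/-- The linear span of `1, X, Y, Z`. -/
def span4 {n : ℕ} (X Y Z : Matrix (Fin n) (Fin n) K) : Submodule K (Matrix (Fin n) (Fin n) K) :=
  Submodule.span K {1, X, Y, Z}

/-- The commutators of any two of `X, Y, Z` lie in the linear span of `1, X, Y, Z`. -/
def CommInSpan {n : ℕ} (X Y Z : Matrix (Fin n) (Fin n) K) : Prop :=
  X * Y - Y * X ∈ span4 X Y Z ∧ Y * Z - Z * Y ∈ span4 X Y Z ∧ Z * X - X * Z ∈ span4 X Y Z

end Pool.Agent.T9h69.Leonard
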